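import Mathlib

/-!
Quasiconformal holomorphic maps of a ball of `ℂ^m`, `m ≥ 2`, into `ℂ^m`: the derivative is bounded
on the whole ball by a constant multiple of its value at the centre.
-/

set_option autoImplicit false

open Metric Set Filter Topology
open scoped InnerProductSpace ContDiff

namespace Pool.Agent.Q130.AN

variable {V : Type*} [NormedAddCommGroup V] [InnerProductSpace ℂ V]

/-- An operator that almost commutes with all operators is almost scalar. -/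
theorem near_scalar {B : V →L[ℂ] V} {c : ℝ} (h : ∀ X : V →L[ℂ] V, ‖B * X - X * B‖ ≤ c * ‖X‖)
    {w : V} (hw : ‖w‖ = 1) (x : V) : ‖B x - ⟪w, B w⟫_ℂ • x‖ ≤ c * ‖x‖ := by
  set X : V →L[ℂ] V := (innerSL ℂ w).smulRight x with hX
  have h1 := h X
  have hXn : ‖X‖ = ‖x‖ := by
    rw [hX, ContinuousLinearMap.norm_smulRight_apply, innerSL_apply_norm, hw, one_mul]
  have h2 := (B * X - X * B).le_opNorm w
  have e : (B * X - X * B) w = B x - ⟪w, B w⟫_ℂ • x := by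
    simp [hX, hw]
  rw [e, hw, mul_one] at h2
  rw [hXn] at h1
  exact h2.trans h1

theorem norm_le_of_comm {B₁ B₂ : V →L[ℂ] V} {c : ℝ} (hc : 0 ≤ c)
    (h₁ : ∀ X : V →L[ℂ] V, ‖B₁ * X - X * B₁‖ ≤ c * ‖X‖)
    (h₂ : ∀ X : V →L[ℂ] V, ‖B₂ * X - X * B₂‖ ≤ c * ‖X‖)
    {e₁ e₂ : V} (he₁ : ‖e₁‖ = 1) (he₂ : ‖e₂‖ = 1) (ho : ⟪e₂, e₁⟫_ℂ = 0)
    (hs : B₁ e₂ = B₂ e₁) : ‖B₁‖ ≤ 3 * c := by
  set l₁ := ⟪e₁, B₁ e₁⟫_ℂ with hl₁
  set l₂ := ⟪e₁, B₂ e₁⟫_ℂ with hl₂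
  have a₁ : ‖B₁ e₂ - l₁ • e₂‖ ≤ c := by
    have := near_scalar h₁ he₁ e₂
    rwa [he₂, mul_one] at this
  have a₂ : ‖B₂ e₁ - l₂ • e₁‖ ≤ c := by
    have := near_scalar h₂ he₁ e₁
    rwa [he₁, mul_one] at this
  have a₃ : ‖l₁ • e₂ - l₂ • e₁‖ ≤ 2 * c := by
    have e : l₁ • e₂ - l₂ • e₁ = (B₂ e₁ - l₂ • e₁) - (B₁ e₂ - l₁ • e₂) := by
      rw [hs]; abel
    rw [e]
    have := norm_sub_le (B₂ e₁ - l₂ • e₁) (B₁ e₂ - l₁ • e₂)
    linarith
  have a₄ : ‖l₁‖ ≤ 2 * c := by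
    have e : ⟪e₂, l₁ • e₂ - l₂ • e₁⟫_ℂ = l₁ := by
      rw [inner_sub_right, inner_smul_right, inner_smul_right, ho, inner_self_eq_norm_sq_to_K, he₂]
      simp
    rw [← e]
    refine (norm_inner_le_norm _ _).trans ?_
    rw [he₂, one_mul]
    exact a₃
  refine ContinuousLinearMap.opNorm_le_bound _ (by positivity) fun x => ?_
  have a₅ := near_scalar h₁ he₁ x
  have a₆ : ‖l₁ • x‖ ≤ 2 * c * ‖x‖ := by
    rw [norm_smul]
    exact mul_le_mul_of_nonneg_right a₄ (norm_nonneg _)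
  have a₇ := norm_add_le (B₁ x - l₁ • x) (l₁ • x)
  rw [sub_add_cancel] at a₇
  linarith

/-- Cauchy estimate for the conjugation by a holomorphic family of quasiconformal operators. -/
theorem comm_bound {F G : ℂ → V →L[ℂ] V} {K r : ℝ} (hr : 0 < r)
    (hF : ∀ ζ ∈ closedBall (0 : ℂ) r, DifferentiableAt ℂ F ζ)
    (hG : ∀ ζ ∈ closedBall (0 : ℂ) r, DifferentiableAt ℂ G ζ)
    (hFG : F 0 * G 0 = 1) (hGF : G 0 * F 0 = 1)
    (hG' : deriv G 0 = -(G 0 * deriv F 0 * G 0))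
    (hK : ∀ ζ ∈ closedBall (0 : ℂ) r, ‖F ζ‖ * ‖G ζ‖ ≤ K) (X : V →L[ℂ] V) :
    ‖(G 0 * deriv F 0) * X - X * (G 0 * deriv F 0)‖ ≤ K ^ 2 / r * ‖X‖ := by
  have h0 : (0 : ℂ) ∈ closedBall (0 : ℂ) r := mem_closedBall_self hr.le
  have hK0 : 0 ≤ K := le_trans (by positivity) (hK 0 h0)
  let Ψ : ℂ → V →L[ℂ] V := fun ζ => G 0 * F ζ * X * G ζ * F 0
  have hΨ : ∀ ζ ∈ closedBall (0 : ℂ) r, DifferentiableAt ℂ Ψ ζ := fun ζ hζ =>
    ((((differentiableAt_const _).mul (hF ζ hζ)).mul (differentiableAt_const _)).mul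
      (hG ζ hζ)).mul (differentiableAt_const _)
  have hdc : DiffContOnCl ℂ Ψ (ball 0 r) := by
    refine DifferentiableOn.diffContOnCl_ball (U := closedBall (0 : ℂ) r) ?_ subset_rfl
    exact fun ζ hζ => (hΨ ζ hζ).differentiableWithinAt
  have hb : ∀ ζ ∈ sphere (0 : ℂ) r, ‖Ψ ζ‖ ≤ K ^ 2 * ‖X‖ := by
    intro ζ hζ
    have h1 := hK ζ (sphere_subset_closedBall hζ)
    have h2 := hK 0 h0
    calc ‖Ψ ζ‖ ≤ ‖G 0‖ * ‖F ζ‖ * ‖X‖ * ‖G ζ‖ * ‖F 0‖ := by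
          refine (norm_mul_le _ _).trans ?_
          refine mul_le_mul_of_nonneg_right ?_ (norm_nonneg _)
          refine (norm_mul_le _ _).trans ?_
          refine mul_le_mul_of_nonneg_right ?_ (norm_nonneg _)
          refine (norm_mul_le _ _).trans ?_
          refine mul_le_mul_of_nonneg_right ?_ (norm_nonneg _)
          exact norm_mul_le _ _
      _ = (‖F 0‖ * ‖G 0‖) * (‖F ζ‖ * ‖G ζ‖) * ‖X‖ := by ring
      _ ≤ K * K * ‖X‖ := by gcongr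
      _ = _ := by ring
  have h1 := Complex.norm_deriv_le_of_forall_mem_sphere_norm_le hr hdc hb
  have hder : HasDerivAt Ψ (G 0 * deriv F 0 * X * G 0 * F 0 +
      G 0 * F 0 * X * deriv G 0 * F 0) 0 := by
    have hF' := (hF 0 h0).hasDerivAt
    have hGd := (hG 0 h0).hasDerivAt
    have t1 : HasDerivAt (fun ζ => G 0 * F ζ * X) (G 0 * deriv F 0 * X) 0 :=
      (hF'.const_mul (G 0)).mul_const X
    have t2 : HasDerivAt Ψ ((G 0 * deriv F 0 * X * G 0 + G 0 * F 0 * X * deriv G 0) * F 0) 0 :=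
      (t1.mul hGd).mul_const (F 0)
    rw [add_mul] at t2
    exact t2
  have e : G 0 * deriv F 0 * X * G 0 * F 0 + G 0 * F 0 * X * deriv G 0 * F 0 =
      (G 0 * deriv F 0) * X - X * (G 0 * deriv F 0) := by
    rw [hG', hGF]
    have e1 : G 0 * deriv F 0 * X * G 0 * F 0 = G 0 * deriv F 0 * X := by
      rw [mul_assoc (G 0 * deriv F 0 * X), hGF, mul_one]
    have e2 : (1 : V →L[ℂ] V) * X * -(G 0 * deriv F 0 * G 0) * F 0 =
        -(X * (G 0 * deriv F 0)) := by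
      rw [one_mul, mul_neg, neg_mul, ← mul_assoc X, mul_assoc (X * (G 0 * deriv F 0)), hGF, mul_one]
    rw [e1, e2, sub_eq_add_neg]
  rw [hder.deriv, e] at h1
  calc _ ≤ K ^ 2 * ‖X‖ / r := h1
    _ = _ := by ring

end Pool.Agent.Q130.AN
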