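import Pool.Agent.Q130.AN.Cx1

set_option autoImplicit false

open Metric Set Filter Topology
open scoped InnerProductSpace ContDiff

namespace Pool.Agent.Q130.AN

variable {V : Type*} [NormedAddCommGroup V] [InnerProductSpace ℂ V] [CompleteSpace V]

/-- A field of invertible quasiconformal operators on the unit ball, whose derivative is
symmetric (as for the derivative of a map). -/
structure QF (F : V → V →L[ℂ] V) (K : ℝ) : Prop where
  cd : ∀ z ∈ ball (0 : V) 1, ContDiffAt ℂ ω F z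
  unit : ∀ z ∈ ball (0 : V) 1, IsUnit (F z)
  qc : ∀ z ∈ ball (0 : V) 1, ‖F z‖ * ‖Ring.inverse (F z)‖ ≤ K
  sym : ∀ z ∈ ball (0 : V) 1, ∀ u v, fderiv ℂ F z u v = fderiv ℂ F z v u

/-- The logarithmic derivative. -/
noncomputable def Bv (F : V → V →L[ℂ] V) (v z : V) : V →L[ℂ] V :=
  Ring.inverse (F z) * fderiv ℂ F z v

variable {F : V → V →L[ℂ] V} {K : ℝ}

theorem QF.diff (h : QF F K) {z : V} (hz : z ∈ ball (0 : V) 1) : DifferentiableAt ℂ F z :=
  (h.cd z hz).differentiableAt (by simp)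

theorem QF.mul_inv (h : QF F K) {z : V} (hz : z ∈ ball (0 : V) 1) :
    F z * Ring.inverse (F z) = 1 := Ring.mul_inverse_cancel _ (h.unit z hz)

theorem QF.inv_mul (h : QF F K) {z : V} (hz : z ∈ ball (0 : V) 1) :
    Ring.inverse (F z) * F z = 1 := Ring.inverse_mul_cancel _ (h.unit z hz)

theorem QF.inv_deriv (h : QF F K) {z : V} (hz : z ∈ ball (0 : V) 1) :
    DifferentiableAt ℂ (fun z => Ring.inverse (F z)) z ∧ ∀ u,
      fderiv ℂ (fun z => Ring.inverse (F z)) z u =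
        -(Ring.inverse (F z) * fderiv ℂ F z u * Ring.inverse (F z)) := by
  obtain ⟨U, hU⟩ := h.unit z hz
  have h1 : HasFDerivAt (Ring.inverse : (V →L[ℂ] V) → V →L[ℂ] V)
      (-ContinuousLinearMap.mulLeftRight ℂ (V →L[ℂ] V) ↑U⁻¹ ↑U⁻¹) (F z) := by
    rw [← hU]
    exact hasFDerivAt_ringInverse U
  have h2 := h1.comp z (h.diff hz).hasFDerivAt
  have h3 : (Ring.inverse (F z) : V →L[ℂ] V) = ↑U⁻¹ := by rw [← hU, Ring.inverse_unit]
  refine ⟨h2.differentiableAt, fun u => ?_⟩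
  have h4 : fderiv ℂ (fun z => Ring.inverse (F z)) z = _ := h2.fderiv
  rw [h4, h3]
  simp [ContinuousLinearMap.mulLeftRight_apply]

/-- The derivative of the logarithmic derivatives. -/
theorem QF.Bv_deriv (h : QF F K) {z : V} (hz : z ∈ ball (0 : V) 1) (u v : V) :
    DifferentiableAt ℂ (Bv F v) z ∧
      fderiv ℂ (Bv F v) z u = -(Bv F u z * Bv F v z) +
        Ring.inverse (F z) * (fderiv ℂ (fderiv ℂ F) z u v) := by
  obtain ⟨h1, h2⟩ := h.inv_deriv hz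
  have hd : DifferentiableAt ℂ (fderiv ℂ F) z :=
    (((h.cd z hz).fderiv_right (m := ω) (by simp))).differentiableAt (by simp)
  have hd' : HasFDerivAt (fun z => fderiv ℂ F z v)
      ((ContinuousLinearMap.apply ℂ (V →L[ℂ] V) v).comp (fderiv ℂ (fderiv ℂ F) z)) z :=
    (ContinuousLinearMap.apply ℂ (V →L[ℂ] V) v).hasFDerivAt.comp z hd.hasFDerivAt
  have h3 := h1.hasFDerivAt.mul' hd'
  have h4 : HasFDerivAt (Bv F v) _ z := h3
  refine ⟨h4.differentiableAt, ?_⟩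
  rw [h4.fderiv]
  simp only [add_apply, smul_apply, smul_eq_mul,
    ContinuousLinearMap.comp_apply, ContinuousLinearMap.apply_apply, h2]
  rw [op_smul_eq_mul, Bv, Bv, neg_mul, add_comm, ← mul_assoc]

/-- Almost commutation of the logarithmic derivative with all operators. -/
theorem QF.comm (h : QF F K) {z v : V} {ρ : ℝ} (hρ : 0 < ρ)
    (hz : ∀ ζ ∈ closedBall (0 : ℂ) ρ, z + ζ • v ∈ ball (0 : V) 1) (X : V →L[ℂ] V) :
    ‖Bv F v z * X - X * Bv F v z‖ ≤ K ^ 2 / ρ * ‖X‖ := by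
  have h0 : (0 : ℂ) ∈ closedBall (0 : ℂ) ρ := mem_closedBall_self hρ.le
  have hz0 : z ∈ ball (0 : V) 1 := by
    have := hz 0 h0
    rwa [zero_smul, add_zero] at this
  have hl : ∀ ζ : ℂ, HasDerivAt (fun ζ : ℂ => z + ζ • v) v ζ := fun ζ => by
    have := ((hasDerivAt_id ζ).smul_const v).const_add z
    simpa using this
  have hF : ∀ ζ ∈ closedBall (0 : ℂ) ρ, HasDerivAt (fun ζ : ℂ => F (z + ζ • v))
      (fderiv ℂ F (z + ζ • v) v) ζ := fun ζ hζ =>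
    (h.diff (hz ζ hζ)).hasFDerivAt.comp_hasDerivAt ζ (hl ζ)
  have hG : ∀ ζ ∈ closedBall (0 : ℂ) ρ, HasDerivAt (fun ζ : ℂ => Ring.inverse (F (z + ζ • v)))
      (fderiv ℂ (fun z => Ring.inverse (F z)) (z + ζ • v) v) ζ := fun ζ hζ =>
    HasFDerivAt.comp_hasDerivAt (l := fun z => Ring.inverse (F z)) ζ
      (h.inv_deriv (hz ζ hζ)).1.hasFDerivAt (hl ζ)
  have e0 : z + (0 : ℂ) • v = z := by rw [zero_smul, add_zero]
  have key := comm_bound (F := fun ζ : ℂ => F (z + ζ • v))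
    (G := fun ζ : ℂ => Ring.inverse (F (z + ζ • v))) (K := K) hρ
    (fun ζ hζ => (hF ζ hζ).differentiableAt) (fun ζ hζ => (hG ζ hζ).differentiableAt)
    (by simp only [e0]; exact h.mul_inv hz0) (by simp only [e0]; exact h.inv_mul hz0)
    (by
      rw [(hG 0 h0).deriv, (hF 0 h0).deriv]
      simp only [e0]
      exact (h.inv_deriv hz0).2 v)
    (fun ζ hζ => h.qc _ (hz ζ hζ)) X
  rw [(hF 0 h0).deriv] at key
  simp only [e0] at key
  exact key

theorem QF.K_pos (h : QF F K) : 0 ≤ K :=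
  le_trans (by positivity) (h.qc 0 (mem_ball_self one_pos))

omit [CompleteSpace V] in
theorem mem_of_dist {z v : V} {d ρ : ℝ} (hd : ρ < d) (hz : ‖z‖ ≤ 1 - d) (hv : ‖v‖ = 1) :
    ∀ ζ ∈ closedBall (0 : ℂ) ρ, z + ζ • v ∈ ball (0 : V) 1 := by
  intro ζ hζ
  rw [mem_closedBall_zero_iff] at hζ
  rw [mem_ball_zero_iff]
  have := norm_add_le z (ζ • v)
  rw [norm_smul, hv, mul_one] at this
  linarith

/-- The logarithmic derivatives at distance `d` from the boundary. -/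
theorem QF.Bv_le (h : QF F K) {e₁ e₂ : V} (he₁ : ‖e₁‖ = 1) (he₂ : ‖e₂‖ = 1)
    (ho : ⟪e₂, e₁⟫_ℂ = 0) {z : V} {d : ℝ} (hd : 0 < d) (hz : ‖z‖ ≤ 1 - d) :
    ‖Bv F e₁ z‖ ≤ 6 * K ^ 2 / d ∧ ‖Bv F e₂ z‖ ≤ 6 * K ^ 2 / d := by
  have hz1 : z ∈ ball (0 : V) 1 := by rw [mem_ball_zero_iff]; linarith
  have hc : 0 ≤ K ^ 2 / (d / 2) := by positivity
  have h1 : ∀ X, ‖Bv F e₁ z * X - X * Bv F e₁ z‖ ≤ K ^ 2 / (d / 2) * ‖X‖ :=
    h.comm (by positivity) (mem_of_dist (d := d) (by linarith) hz he₁)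
  have h2 : ∀ X, ‖Bv F e₂ z * X - X * Bv F e₂ z‖ ≤ K ^ 2 / (d / 2) * ‖X‖ :=
    h.comm (by positivity) (mem_of_dist (d := d) (by linarith) hz he₂)
  have hs : Bv F e₁ z e₂ = Bv F e₂ z e₁ := by
    show Ring.inverse (F z) (fderiv ℂ F z e₁ e₂) = Ring.inverse (F z) (fderiv ℂ F z e₂ e₁)
    rw [h.sym z hz1]
  have ho' : ⟪e₁, e₂⟫_ℂ = 0 := inner_eq_zero_symm.mp ho
  have e : 3 * (K ^ 2 / (d / 2)) = 6 * K ^ 2 / d := by
    field_simp; ring
  rw [← e]
  exact ⟨norm_le_of_comm hc h1 h2 he₁ he₂ ho hs, norm_le_of_comm hc h2 h1 he₂ he₁ ho' hs.symm⟩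

end Pool.Agent.Q130.AN
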