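import Pool.Agent.Q130.AN.Cx2

set_option autoImplicit false

open Metric Set Filter Topology
open scoped InnerProductSpace ContDiff

namespace Pool.Agent.Q130.AN

variable {V : Type*} [NormedAddCommGroup V] [InnerProductSpace ℂ V]

/-- The path `τ ↦ (1 - (1 - τ)²) e`. -/
noncomputable def zz (e : V) (τ : ℝ) : V := ((2 * τ - τ ^ 2 : ℝ) : ℂ) • e

theorem zz_deriv (e : V) (τ : ℝ) :
    HasDerivAt (zz e) (((2 - 2 * τ : ℝ) : ℂ) • e) τ := by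
  have h1 : HasDerivAt (fun τ : ℝ => 2 * τ - τ ^ 2) (2 - 2 * τ) τ := by
    have h : HasDerivAt (fun τ : ℝ => 2 * τ - τ ^ 2) (2 * 1 - (2 : ℕ) * τ ^ (2 - 1)) τ :=
      ((hasDerivAt_id' τ).const_mul (2:ℝ)).sub (hasDerivAt_pow 2 τ)
    refine h.congr_deriv ?_
    norm_num
  have h2 : HasDerivAt (fun τ : ℝ => ((2 * τ - τ ^ 2 : ℝ) : ℂ)) ((2 - 2 * τ : ℝ) : ℂ) τ :=
    h1.ofReal_comp
  exact h2.smul_const e

theorem path_deriv {W : Type*} [NormedAddCommGroup W] [NormedSpace ℂ W] {f : V → W} {e : V}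
    {τ : ℝ} (hf : DifferentiableAt ℂ f (zz e τ)) :
    HasDerivAt (fun τ => f (zz e τ)) (((2 - 2 * τ : ℝ) : ℂ) • fderiv ℂ f (zz e τ) e) τ := by
  have h1 := (hf.hasFDerivAt.restrictScalars ℝ).comp_hasDerivAt τ (zz_deriv e τ)
  have e1 : ((fderiv ℂ f (zz e τ)).restrictScalars ℝ) (((2 - 2 * τ : ℝ) : ℂ) • e) =
      ((2 - 2 * τ : ℝ) : ℂ) • fderiv ℂ f (zz e τ) e := by
    rw [ContinuousLinearMap.coe_restrictScalars', map_smul]
  rw [e1] at h1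
  exact h1

theorem zz_norm {e : V} (he : ‖e‖ = 1) {τ : ℝ} (h0 : 0 ≤ τ) (h1 : τ ≤ 1) :
    ‖zz e τ‖ = 1 - (1 - τ) ^ 2 := by
  rw [zz, norm_smul, he, mul_one, Complex.norm_real, Real.norm_eq_abs, abs_of_nonneg]
  · ring
  · nlinarith

/-- Tangential discs. -/
theorem tang {e₁ e₂ : V} (he₁ : ‖e₁‖ = 1) (he₂ : ‖e₂‖ = 1) (ho : ⟪e₂, e₁⟫_ℂ = 0) {τ : ℝ}
    (h0 : 0 ≤ τ) (h1 : τ < 1) {ζ : ℂ} (hζ : ‖ζ‖ ≤ (1 - τ) / 2) :
    ‖zz e₁ τ + ζ • e₂‖ ≤ 1 - (1 - τ) ^ 2 / 4 := by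
  have hp : ‖zz e₁ τ + ζ • e₂‖ * ‖zz e₁ τ + ζ • e₂‖ = ‖zz e₁ τ‖ * ‖zz e₁ τ‖ +
      ‖ζ • e₂‖ * ‖ζ • e₂‖ := by
    refine norm_add_sq_eq_norm_sq_add_norm_sq_of_inner_eq_zero (𝕜 := ℂ) _ _ ?_
    rw [zz, inner_smul_left, inner_smul_right, inner_eq_zero_symm.mp ho]
    simp
  rw [zz_norm he₁ h0 h1.le, norm_smul, he₂, mul_one] at hp
  have hn : 0 ≤ ‖zz e₁ τ + ζ • e₂‖ := norm_nonneg _
  set s := 1 - τ with hs
  have hs0 : 0 < s := by linarith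
  have hs1 : s ≤ 1 := by linarith
  have hs2 : s ^ 2 ≤ 1 := by nlinarith
  have hζ2 : ‖ζ‖ * ‖ζ‖ ≤ s ^ 2 / 4 := by
    have := mul_le_mul hζ hζ (norm_nonneg _) (by positivity)
    nlinarith
  refine abs_le_of_sq_le_sq' ?_ ?_ |>.2
  · nlinarith [mul_nonneg (sq_nonneg s) (sub_nonneg.mpr hs2)]
  · nlinarith

variable [CompleteSpace V] {F : V → V →L[ℂ] V} {K : ℝ}

/-- The transversal derivative of the tangential logarithmic derivative. -/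
theorem QF.cross (h : QF F K) (hK : 1 ≤ K) {e₁ e₂ : V} (he₁ : ‖e₁‖ = 1) (he₂ : ‖e₂‖ = 1)
    (ho : ⟪e₂, e₁⟫_ℂ = 0) {τ : ℝ} (h0 : 0 ≤ τ) (h1 : τ < 1) :
    ‖fderiv ℂ (Bv F e₂) (zz e₁ τ) e₁‖ ≤ 60 * K ^ 4 / (1 - τ) ^ 3 := by
  set s := 1 - τ with hs
  have hs0 : 0 < s := by linarith
  have hs1 : s ≤ 1 := by linarith
  set z := zz e₁ τ with hz
  have hzn : ‖z‖ = 1 - s ^ 2 := zz_norm he₁ h0 h1.le
  have hz1 : z ∈ ball (0 : V) 1 := by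
    rw [mem_ball_zero_iff, hzn]
    have : 0 < s ^ 2 := by positivity
    linarith
  have hdisc : ∀ ζ ∈ closedBall (0 : ℂ) (s / 2), ‖z + ζ • e₂‖ ≤ 1 - s ^ 2 / 4 := fun ζ hζ => by
    rw [mem_closedBall_zero_iff] at hζ
    exact tang he₁ he₂ ho h0 h1 hζ
  have hdisc' : ∀ ζ ∈ closedBall (0 : ℂ) (s / 2), z + ζ • e₂ ∈ ball (0 : V) 1 := fun ζ hζ => by
    rw [mem_ball_zero_iff]
    have := hdisc ζ hζ
    have : 0 < s ^ 2 := by positivity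
    linarith
  have hK2 : (1:ℝ) ≤ K ^ 2 := one_le_pow₀ hK
  -- derivative of `B₁` in the direction `e₂`
  have c1 : ‖fderiv ℂ (Bv F e₁) z e₂‖ ≤ 48 * K ^ 2 / s ^ 3 := by
    have hl : ∀ ζ : ℂ, HasDerivAt (fun ζ : ℂ => z + ζ • e₂) e₂ ζ := fun ζ => by
      have := ((hasDerivAt_id ζ).smul_const e₂).const_add z
      simpa using this
    have hB : ∀ ζ ∈ closedBall (0 : ℂ) (s / 2), HasDerivAt (fun ζ : ℂ => Bv F e₁ (z + ζ • e₂))
        (fderiv ℂ (Bv F e₁) (z + ζ • e₂) e₂) ζ := fun ζ hζ =>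
      HasFDerivAt.comp_hasDerivAt (l := Bv F e₁) ζ
        (h.Bv_deriv (hdisc' ζ hζ) e₂ e₁).1.hasFDerivAt (hl ζ)
    have hdc : DiffContOnCl ℂ (fun ζ : ℂ => Bv F e₁ (z + ζ • e₂)) (ball 0 (s / 2)) := by
      refine DifferentiableOn.diffContOnCl_ball (U := closedBall (0 : ℂ) (s / 2)) ?_ subset_rfl
      exact fun ζ hζ => (hB ζ hζ).differentiableAt.differentiableWithinAt
    have hb : ∀ ζ ∈ sphere (0 : ℂ) (s / 2), ‖Bv F e₁ (z + ζ • e₂)‖ ≤ 6 * K ^ 2 / (s ^ 2 / 4) :=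
      fun ζ hζ => (h.Bv_le he₁ he₂ ho (by positivity) (hdisc ζ (sphere_subset_closedBall hζ))).1
    have := Complex.norm_deriv_le_of_forall_mem_sphere_norm_le (by positivity) hdc hb
    rw [(hB 0 (mem_closedBall_self (by positivity))).deriv, zero_smul, add_zero] at this
    refine this.trans (le_of_eq ?_)
    field_simp
    norm_num
  -- the commutator
  have c2 : ‖Bv F e₂ z * Bv F e₁ z - Bv F e₁ z * Bv F e₂ z‖ ≤ 12 * K ^ 4 / s ^ 3 := by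
    have h2 := h.comm (ρ := s / 2) (by positivity) hdisc' (Bv F e₁ z)
    have h3 := (h.Bv_le he₁ he₂ ho (z := z) (d := s ^ 2) (by positivity) hzn.le).1
    calc _ ≤ K ^ 2 / (s / 2) * ‖Bv F e₁ z‖ := h2
      _ ≤ K ^ 2 / (s / 2) * (6 * K ^ 2 / s ^ 2) := by gcongr
      _ = _ := by field_simp; norm_num
  have hsym : fderiv ℂ (fderiv ℂ F) z e₁ e₂ = fderiv ℂ (fderiv ℂ F) z e₂ e₁ :=
    (h.cd z hz1).isSymmSndFDerivAt_of_omega e₁ e₂
  have e : fderiv ℂ (Bv F e₂) z e₁ = fderiv ℂ (Bv F e₁) z e₂ +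
      (Bv F e₂ z * Bv F e₁ z - Bv F e₁ z * Bv F e₂ z) := by
    rw [(h.Bv_deriv hz1 e₁ e₂).2, (h.Bv_deriv hz1 e₂ e₁).2, hsym]
    abel
  rw [e]
  refine (norm_add_le _ _).trans ?_
  have c3 : 48 * K ^ 2 / s ^ 3 ≤ 48 * K ^ 4 / s ^ 3 := by
    have : K ^ 2 ≤ K ^ 4 := pow_le_pow_right₀ hK (by norm_num)
    gcongr
  have c4 : 48 * K ^ 4 / s ^ 3 + 12 * K ^ 4 / s ^ 3 = 60 * K ^ 4 / s ^ 3 := by ring
  linarith

/-- The tangential logarithmic derivative along the path. -/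
theorem QF.tangB (h : QF F K) (hK : 1 ≤ K) {e₁ e₂ : V} (he₁ : ‖e₁‖ = 1) (he₂ : ‖e₂‖ = 1)
    (ho : ⟪e₂, e₁⟫_ℂ = 0) {τ : ℝ} (h0 : 0 ≤ τ) (h1 : τ < 1) :
    ‖Bv F e₂ (zz e₁ τ)‖ ≤ 120 * K ^ 4 / (1 - τ) := by
  have hmem : ∀ t, 0 ≤ t → t < 1 → zz e₁ t ∈ ball (0 : V) 1 := by
    intro t ht0 ht1
    rw [mem_ball_zero_iff, zz_norm he₁ ht0 ht1.le]
    have : 0 < (1 - t) ^ 2 := by
      have : 0 < 1 - t := by linarith
      positivity
    linarith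
  have hder : ∀ t, 0 ≤ t → t < 1 → HasDerivAt (fun t => Bv F e₂ (zz e₁ t))
      (((2 - 2 * t : ℝ) : ℂ) • fderiv ℂ (Bv F e₂) (zz e₁ t) e₁) t := fun t ht0 ht1 =>
    path_deriv (h.Bv_deriv (hmem t ht0 ht1) e₁ e₂).1
  have hK2 : (1:ℝ) ≤ K ^ 2 := one_le_pow₀ hK
  have hBd : ∀ t : ℝ, t < 1 → HasDerivAt (fun t : ℝ => 120 * K ^ 4 / (1 - t))
      (120 * K ^ 4 / (1 - t) ^ 2) t := by
    intro t ht
    have h2 : (1 - t) ≠ 0 := by linarith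
    have h3 : HasDerivAt (fun t : ℝ => 1 - t) (-1) t := by
      simpa using (hasDerivAt_id t).const_sub 1
    have := (h3.inv h2).const_mul (120 * K ^ 4)
    refine (this.congr_deriv ?_)
    field_simp
  refine image_norm_le_of_norm_deriv_right_le_deriv_boundary' (a := 0) (b := τ)
    (f := fun t => Bv F e₂ (zz e₁ t))
    (f' := fun t => ((2 - 2 * t : ℝ) : ℂ) • fderiv ℂ (Bv F e₂) (zz e₁ t) e₁)
    (B := fun t => 120 * K ^ 4 / (1 - t)) (B' := fun t => 120 * K ^ 4 / (1 - t) ^ 2)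
    ?_ ?_ ?_ ?_ ?_ ?_ (right_mem_Icc.mpr h0)
  · exact fun t ht => (hder t ht.1 (ht.2.trans_lt h1)).continuousAt.continuousWithinAt
  · exact fun t ht => (hder t ht.1 (ht.2.trans h1)).hasDerivWithinAt
  · have e0 : ‖zz e₁ 0‖ ≤ 1 - 1 := by rw [zz_norm he₁ le_rfl zero_le_one]; norm_num
    have := (h.Bv_le he₁ he₂ ho one_pos e0).2
    refine this.trans ?_
    have : K ^ 2 ≤ K ^ 4 := pow_le_pow_right₀ hK (by norm_num)
    rw [sub_zero, div_one, div_one]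
    linarith
  · exact fun t ht => (hBd t (ht.2.trans_lt h1)).continuousAt.continuousWithinAt
  · exact fun t ht => (hBd t (ht.2.trans h1)).hasDerivWithinAt
  · intro t ht
    have ht1 := ht.2.trans h1
    have hs0 : 0 < 1 - t := by linarith
    have c := h.cross hK he₁ he₂ ho ht.1 ht1
    rw [norm_smul, Complex.norm_real, Real.norm_eq_abs, abs_of_nonneg (by linarith)]
    calc (2 - 2 * t) * ‖fderiv ℂ (Bv F e₂) (zz e₁ t) e₁‖
        ≤ (2 - 2 * t) * (60 * K ^ 4 / (1 - t) ^ 3) :=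
          mul_le_mul_of_nonneg_left c (by linarith)
      _ = _ := by field_simp; ring

/-- The derivative is bounded on the whole ball. -/
theorem QF.bound (h : QF F K) (hK : 1 ≤ K) {e₁ e₂ : V} (he₁ : ‖e₁‖ = 1) (he₂ : ‖e₂‖ = 1)
    (ho : ⟪e₂, e₁⟫_ℂ = 0) {τ : ℝ} (h0 : 0 ≤ τ) (h1 : τ < 1) :
    ‖F (zz e₁ τ)‖ ≤ K * Real.exp (240 * K ^ 5) * ‖F 0‖ := by
  have hmem : ∀ t, 0 ≤ t → t < 1 → zz e₁ t ∈ ball (0 : V) 1 := by
    intro t ht0 ht1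
    rw [mem_ball_zero_iff, zz_norm he₁ ht0 ht1.le]
    have : 0 < (1 - t) ^ 2 := by
      have : 0 < 1 - t := by linarith
      positivity
    linarith
  have hlow : ∀ z ∈ ball (0 : V) 1, ‖F z‖ ≤ K * ‖F z e₂‖ := by
    intro z hz
    have e : e₂ = Ring.inverse (F z) (F z e₂) := by
      have : (Ring.inverse (F z) * F z) e₂ = e₂ := by rw [h.inv_mul hz]; rfl
      exact this.symm
    have h2 : (1:ℝ) ≤ ‖Ring.inverse (F z)‖ * ‖F z e₂‖ := by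
      calc (1:ℝ) = ‖Ring.inverse (F z) (F z e₂)‖ := by rw [← e, he₂]
        _ ≤ _ := ContinuousLinearMap.le_opNorm _ _
    calc ‖F z‖ = ‖F z‖ * 1 := (mul_one _).symm
      _ ≤ ‖F z‖ * (‖Ring.inverse (F z)‖ * ‖F z e₂‖) :=
          mul_le_mul_of_nonneg_left h2 (norm_nonneg _)
      _ = (‖F z‖ * ‖Ring.inverse (F z)‖) * ‖F z e₂‖ := by ring
      _ ≤ K * ‖F z e₂‖ := mul_le_mul_of_nonneg_right (h.qc z hz) (norm_nonneg _)
  have hd : ∀ z ∈ ball (0 : V) 1, HasFDerivAt (fun z => F z e₂)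
      ((ContinuousLinearMap.apply ℂ V e₂).comp (fderiv ℂ F z)) z := fun z hz =>
    (ContinuousLinearMap.apply ℂ V e₂).hasFDerivAt.comp z (h.diff hz).hasFDerivAt
  have hder : ∀ t, 0 ≤ t → t < 1 → HasDerivAt (fun t => F (zz e₁ t) e₂)
      (((2 - 2 * t : ℝ) : ℂ) • (fderiv ℂ F (zz e₁ t) e₁ e₂)) t := by
    intro t ht0 ht1
    have h2 := path_deriv (f := fun z => F z e₂) (e := e₁) (τ := t)
      (hd _ (hmem t ht0 ht1)).differentiableAt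
    rw [(hd _ (hmem t ht0 ht1)).fderiv] at h2
    exact h2
  have hgr := norm_le_gronwallBound_of_norm_deriv_right_le (a := 0) (b := τ)
    (f := fun t => F (zz e₁ t) e₂)
    (f' := fun t => ((2 - 2 * t : ℝ) : ℂ) • (fderiv ℂ F (zz e₁ t) e₁ e₂))
    (δ := ‖F 0‖) (K := 240 * K ^ 5) (ε := 0)
    (fun t ht => (hder t ht.1 (ht.2.trans_lt h1)).continuousAt.continuousWithinAt)
    (fun t ht => (hder t ht.1 (ht.2.trans h1)).hasDerivWithinAt)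
    (by
      have e0 : zz e₁ 0 = 0 := by simp [zz]
      show ‖F (zz e₁ 0) e₂‖ ≤ ‖F 0‖
      rw [e0]
      have := (F 0).le_opNorm e₂
      rwa [he₂, mul_one] at this)
    (by
      intro t ht
      have ht1 := ht.2.trans h1
      have hs0 : 0 < 1 - t := by linarith
      have hzt := hmem t ht.1 ht1
      have e1 : fderiv ℂ F (zz e₁ t) e₁ e₂ = F (zz e₁ t) (Bv F e₂ (zz e₁ t) e₁) := by
        rw [h.sym _ hzt e₁ e₂]
        have : (F (zz e₁ t) * (Ring.inverse (F (zz e₁ t)) * fderiv ℂ F (zz e₁ t) e₂)) e₁ =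
            fderiv ℂ F (zz e₁ t) e₂ e₁ := by
          rw [← mul_assoc, h.mul_inv hzt, one_mul]
        exact this.symm
      have c := h.tangB hK he₁ he₂ ho ht.1 ht1
      show ‖((2 - 2 * t : ℝ) : ℂ) • (fderiv ℂ F (zz e₁ t) e₁ e₂)‖ ≤
        240 * K ^ 5 * ‖F (zz e₁ t) e₂‖ + 0
      rw [norm_smul, Complex.norm_real, Real.norm_eq_abs, abs_of_nonneg (by linarith), e1, add_zero]
      have c1 : ‖F (zz e₁ t) (Bv F e₂ (zz e₁ t) e₁)‖ ≤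
          ‖F (zz e₁ t)‖ * (120 * K ^ 4 / (1 - t)) := by
        refine (ContinuousLinearMap.le_opNorm _ _).trans ?_
        refine mul_le_mul_of_nonneg_left ?_ (norm_nonneg _)
        refine (ContinuousLinearMap.le_opNorm _ _).trans ?_
        rw [he₁, mul_one]
        exact c
      calc (2 - 2 * t) * ‖F (zz e₁ t) (Bv F e₂ (zz e₁ t) e₁)‖
          ≤ (2 - 2 * t) * (‖F (zz e₁ t)‖ * (120 * K ^ 4 / (1 - t))) :=
            mul_le_mul_of_nonneg_left c1 (by linarith)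
        _ = 240 * K ^ 4 * ‖F (zz e₁ t)‖ := by field_simp; ring
        _ ≤ 240 * K ^ 4 * (K * ‖F (zz e₁ t) e₂‖) := by
            gcongr
            exact hlow _ hzt
        _ = _ := by ring) τ (right_mem_Icc.mpr h0)
  rw [gronwallBound_ε0, sub_zero] at hgr
  have hK0 : 0 ≤ K := by linarith
  have hexp : Real.exp (240 * K ^ 5 * τ) ≤ Real.exp (240 * K ^ 5) := by
    apply Real.exp_le_exp.mpr
    have : 0 ≤ 240 * K ^ 5 := by positivity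
    nlinarith
  calc ‖F (zz e₁ τ)‖ ≤ K * ‖F (zz e₁ τ) e₂‖ := hlow _ (hmem τ h0 h1)
    _ ≤ K * (‖F 0‖ * Real.exp (240 * K ^ 5 * τ)) := mul_le_mul_of_nonneg_left hgr hK0
    _ ≤ K * (‖F 0‖ * Real.exp (240 * K ^ 5)) := by gcongr
    _ = _ := by ring

end Pool.Agent.Q130.AN
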