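import Pool.Agent.Q130.AN.Cx3
import Pool.Agent.Q93.MC.Osg

set_option autoImplicit false

open Metric Set Filter Topology
open scoped InnerProductSpace ContDiff

namespace Pool.Agent.Q130.AN

/-- Osgood's lemma for maps between finite-dimensional spaces. -/
theorem analytic_of_diff {V W : Type*} [NormedAddCommGroup V] [NormedSpace ℂ V]
    [FiniteDimensional ℂ V] [NormedAddCommGroup W] [NormedSpace ℂ W] [FiniteDimensional ℂ W]
    {h : V → W} {s : Set V} (hs : IsOpen s) (hd : DifferentiableOn ℂ h s) {z : V} (hz : z ∈ s) :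
    AnalyticAt ℂ h z := by
  let A : V ≃L[ℂ] (Fin (Module.finrank ℂ V) → ℂ) :=
    ContinuousLinearEquiv.ofFinrankEq (by simp)
  let B : W ≃L[ℂ] (Fin (Module.finrank ℂ W) → ℂ) :=
    ContinuousLinearEquiv.ofFinrankEq (by simp)
  have hopen : IsOpen (A.symm ⁻¹' s) := hs.preimage A.symm.continuous
  have hmem : A z ∈ A.symm ⁻¹' s := by simpa using hz
  obtain ⟨R, hR, hball⟩ := Metric.isOpen_iff.mp hopen (A z) hmem
  have h1 : ∀ i, AnalyticAt ℂ (fun w => B (h (A.symm w)) i) (A z) := by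
    intro i
    refine Pool.Agent.Q93.MC.analyticAt_of_differentiable _ (A z) (R / 2) (by positivity) _ ?_
    intro w hw
    have hw' : w ∈ A.symm ⁻¹' s := by
      apply hball
      rw [mem_ball, dist_pi_lt_iff hR]
      intro j
      have := hw j
      rw [mem_closedBall] at this
      linarith
    have h2 : DifferentiableAt ℂ h (A.symm w) := hd.differentiableAt (hs.mem_nhds hw')
    have h3 : DifferentiableAt ℂ (fun w => B (h (A.symm w))) w :=
      B.differentiableAt.comp w (h2.comp w A.symm.differentiableAt)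
    exact (differentiableAt_pi.mp h3) i
  have h4 : AnalyticAt ℂ (fun w => B (h (A.symm w))) (A z) := by
    rw [analyticAt_pi_iff]
    exact h1
  have h5 : AnalyticAt ℂ (fun v => B.symm (B (h (A.symm (A v))))) z := by
    have h6 : AnalyticAt ℂ (fun v => B (h (A.symm (A v)))) z :=
      AnalyticAt.fun_comp (g := fun w => B (h (A.symm w))) (f := fun v => A v) h4
        (A.analyticAt z)
    exact AnalyticAt.fun_comp (g := fun w => B.symm w) (B.symm.analyticAt _) h6
  simpa using h5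

variable {V : Type*} [NormedAddCommGroup V] [InnerProductSpace ℂ V] [FiniteDimensional ℂ V]

/-- A holomorphic map of the unit ball with quasiconformal derivatives gives a field `QF`. -/
theorem QF.of_diff {h : V → V} {K : ℝ} (hK : 0 ≤ K) (hd : DifferentiableOn ℂ h (ball 0 1))
    (hinj : ∀ z ∈ ball (0 : V) 1, ∀ v, fderiv ℂ h z v = 0 → v = 0)
    (hqc : ∀ z ∈ ball (0 : V) 1, ∀ v w,
      ‖fderiv ℂ h z v‖ * ‖w‖ ≤ K * (‖fderiv ℂ h z w‖ * ‖v‖)) :
    QF (fderiv ℂ h) K := by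
  have ha : ∀ z ∈ ball (0 : V) 1, AnalyticAt ℂ h z := fun z hz =>
    analytic_of_diff isOpen_ball hd hz
  have hu : ∀ z ∈ ball (0 : V) 1, IsUnit (fderiv ℂ h z) := by
    intro z hz
    have h1 : Function.Injective (fderiv ℂ h z) := by
      rw [injective_iff_map_eq_zero]
      exact fun v hv => hinj z hz v hv
    have h2 : Function.Bijective (fderiv ℂ h z : V →ₗ[ℂ] V) :=
      ⟨h1, LinearMap.injective_iff_surjective.mp h1⟩
    let e : V ≃L[ℂ] V := (LinearEquiv.ofBijective (fderiv ℂ h z : V →ₗ[ℂ] V) h2).toContinuousLinearEquiv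
    have h3 : fderiv ℂ h z = (e : V →L[ℂ] V) := by
      ext v; rfl
    rw [h3]
    exact ⟨ContinuousLinearEquiv.toUnit e, rfl⟩
  have : CompleteSpace V := FiniteDimensional.complete ℂ V
  refine ⟨fun z hz => ?_, hu, fun z hz => ?_, fun z hz u v => ?_⟩
  · exact ((ha z hz).fderiv).contDiffAt
  · have e1 : ∀ x, fderiv ℂ h z (Ring.inverse (fderiv ℂ h z) x) = x := by
      intro x
      have : (fderiv ℂ h z * Ring.inverse (fderiv ℂ h z)) x = x := by
        rw [Ring.mul_inverse_cancel _ (hu z hz)]; rfl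
      exact this
    set G := Ring.inverse (fderiv ℂ h z) with hG
    rcases eq_or_lt_of_le (norm_nonneg G) with h0 | h0
    · rw [← h0, mul_zero]; exact hK
    have h2 : ∀ x, ‖fderiv ℂ h z‖ * ‖G x‖ ≤ K * ‖x‖ := by
      intro x
      rcases eq_or_ne (G x) 0 with hx | hx
      · rw [hx, norm_zero, mul_zero]; positivity
      have hx0 : 0 < ‖G x‖ := norm_pos_iff.mpr hx
      rw [← le_div_iff₀ hx0]
      refine ContinuousLinearMap.opNorm_le_bound _ (by positivity) fun v => ?_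
      have := hqc z hz v (G x)
      rw [e1] at this
      rw [div_mul_eq_mul_div, le_div_iff₀ hx0]
      linarith
    rcases eq_or_lt_of_le (norm_nonneg (fderiv ℂ h z)) with h3 | h3
    · rw [← h3, zero_mul]; exact hK
    have h4 : ‖G‖ ≤ K / ‖fderiv ℂ h z‖ := by
      refine ContinuousLinearMap.opNorm_le_bound _ (by positivity) fun x => ?_
      rw [div_mul_eq_mul_div, le_div_iff₀ h3, mul_comm]
      exact h2 x
    rw [le_div_iff₀ h3] at h4
    linarith
  · exact (ha z hz).contDiffAt.isSymmSndFDerivAt_of_omega u v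

/-- A unit vector orthogonal to a given one. -/
theorem exists_orth (hdim : 2 ≤ Module.finrank ℂ V) (e : V) :
    ∃ e₂ : V, ‖e₂‖ = 1 ∧ ⟪e₂, e⟫_ℂ = 0 := by
  have h1 : Module.finrank ℂ (Submodule.span ℂ {e}) ≤ 1 := by
    simpa using finrank_span_le_card ({e} : Set V)
  have h2 := Submodule.finrank_add_finrank_orthogonal (𝕜 := ℂ) (Submodule.span ℂ {e})
  have h3 : 0 < Module.finrank ℂ (Submodule.span ℂ {e})ᗮ := by omega
  have : Nontrivial (Submodule.span ℂ {e})ᗮ := Module.finrank_pos_iff.mp h3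
  obtain ⟨v, hv⟩ := exists_ne (0 : (Submodule.span ℂ {e})ᗮ)
  have hv0 : (v : V) ≠ 0 := fun h => hv (Subtype.ext h)
  have hn : 0 < ‖(v : V)‖ := norm_pos_iff.mpr hv0
  refine ⟨((‖(v : V)‖⁻¹ : ℝ) : ℂ) • (v : V), ?_, ?_⟩
  · rw [norm_smul, Complex.norm_real, norm_inv, norm_norm, inv_mul_cancel₀ hn.ne']
  · rw [inner_smul_left]
    have := Submodule.mem_orthogonal_singleton_iff_inner_left.mp v.2
    rw [this, mul_zero]

/-- **Bounded derivative.**  A holomorphic map of the unit ball of a complex inner product space of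
dimension at least `2` into the space, with uniformly quasiconformal derivatives. -/
theorem bounded_deriv {h : V → V} {K : ℝ} (hK : 1 ≤ K) (hdim : 2 ≤ Module.finrank ℂ V)
    (hd : DifferentiableOn ℂ h (ball 0 1))
    (hinj : ∀ z ∈ ball (0 : V) 1, ∀ v, fderiv ℂ h z v = 0 → v = 0)
    (hqc : ∀ z ∈ ball (0 : V) 1, ∀ v w,
      ‖fderiv ℂ h z v‖ * ‖w‖ ≤ K * (‖fderiv ℂ h z w‖ * ‖v‖)) :
    ∀ z ∈ ball (0 : V) 1, ‖fderiv ℂ h z‖ ≤ K * Real.exp (240 * K ^ 5) * ‖fderiv ℂ h 0‖ := by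
  intro z hz
  have : CompleteSpace V := FiniteDimensional.complete ℂ V
  have hF := QF.of_diff (by linarith) hd hinj hqc
  obtain ⟨e₁, he₁, hze⟩ : ∃ e₁ : V, ‖e₁‖ = 1 ∧ z = ((‖z‖ : ℝ) : ℂ) • e₁ := by
    rcases eq_or_ne z 0 with h0 | h0
    · obtain ⟨e, he, -⟩ := exists_orth hdim (0 : V)
      exact ⟨e, he, by rw [h0, norm_zero]; simp⟩
    · have hn : 0 < ‖z‖ := norm_pos_iff.mpr h0
      refine ⟨((‖z‖⁻¹ : ℝ) : ℂ) • z, ?_, ?_⟩
      · rw [norm_smul, Complex.norm_real, norm_inv, norm_norm, inv_mul_cancel₀ hn.ne']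
      · rw [smul_smul, ← Complex.ofReal_mul, mul_inv_cancel₀ hn.ne', Complex.ofReal_one, one_smul]
  obtain ⟨e₂, he₂, ho⟩ := exists_orth hdim e₁
  rw [mem_ball_zero_iff] at hz
  have hs0 : 0 < Real.sqrt (1 - ‖z‖) := Real.sqrt_pos.mpr (by linarith)
  have hs1 : Real.sqrt (1 - ‖z‖) ≤ 1 := by
    rw [Real.sqrt_le_left zero_le_one]
    have := norm_nonneg z
    nlinarith
  have hs2 : Real.sqrt (1 - ‖z‖) ^ 2 = 1 - ‖z‖ := Real.sq_sqrt (by linarith)
  have key := hF.bound hK he₁ he₂ ho (τ := 1 - Real.sqrt (1 - ‖z‖)) (by linarith) (by linarith)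
  have e : zz e₁ (1 - Real.sqrt (1 - ‖z‖)) = z := by
    have : (2 * (1 - Real.sqrt (1 - ‖z‖)) - (1 - Real.sqrt (1 - ‖z‖)) ^ 2 : ℝ) = ‖z‖ := by
      nlinarith
    rw [zz, this]
    exact hze.symm
  rwa [e] at key

/-- The map itself is bounded. -/
theorem bounded_map {h : V → V} {K : ℝ} (hK : 1 ≤ K) (hdim : 2 ≤ Module.finrank ℂ V)
    (hd : DifferentiableOn ℂ h (ball 0 1))
    (hinj : ∀ z ∈ ball (0 : V) 1, ∀ v, fderiv ℂ h z v = 0 → v = 0)
    (hqc : ∀ z ∈ ball (0 : V) 1, ∀ v w,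
      ‖fderiv ℂ h z v‖ * ‖w‖ ≤ K * (‖fderiv ℂ h z w‖ * ‖v‖)) :
    ∀ z ∈ ball (0 : V) 1, ‖h z - h 0‖ ≤ K * Real.exp (240 * K ^ 5) * ‖fderiv ℂ h 0‖ := by
  intro z hz
  have h0 : (0 : V) ∈ ball (0 : V) 1 := mem_ball_self one_pos
  have h1 := (convex_ball (0 : V) 1).norm_image_sub_le_of_norm_fderiv_le (𝕜 := ℂ) (f := h)
    (fun w hw => hd.differentiableAt (isOpen_ball.mem_nhds hw))
    (bounded_deriv hK hdim hd hinj hqc) h0 hz
  refine h1.trans ?_
  rw [mem_ball_zero_iff] at hz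
  rw [sub_zero]
  have : 0 ≤ K * Real.exp (240 * K ^ 5) * ‖fderiv ℂ h 0‖ := by positivity
  nlinarith

end Pool.Agent.Q130.AN
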