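import Pool.Agent.Q130.AN.Cx4

set_option autoImplicit false

open Metric Set Filter Topology
open scoped InnerProductSpace ContDiff

namespace Pool.Agent.Q130.AN

/-- Complex coordinates. -/
theorem exists_cx_iso (V : Type*) [AddCommGroup V] [Module ℝ V] [FiniteDimensional ℝ V]
    (J : V →ₗ[ℝ] V) (hJ : ∀ v, J (J v) = -v) : ∃ m : ℕ, Module.finrank ℝ V = 2 * m ∧
    ∃ A : EuclideanSpace ℂ (Fin m) ≃ₗ[ℝ] V, ∀ z, A (Complex.I • z) = J (A z) := by
  have hJ2 : J * J = -1 := LinearMap.ext fun v => hJ v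
  let φ : ℂ →ₐ[ℝ] Module.End ℝ V := Complex.lift ⟨J, hJ2⟩
  let _ : Module ℂ V := Module.compHom V φ.toRingHom
  have hsm : ∀ (c : ℂ) (v : V), c • v = φ c v := fun _ _ => rfl
  have : IsScalarTower ℝ ℂ V := ⟨fun r c v => by
    rw [hsm, hsm, map_smul]; rfl⟩
  have : FiniteDimensional ℂ V := Module.Finite.of_restrictScalars_finite ℝ ℂ V
  have h1 := Module.finrank_mul_finrank ℝ ℂ V
  rw [Complex.finrank_real_complex] at h1
  refine ⟨Module.finrank ℂ V, h1.symm, ?_⟩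
  let A : EuclideanSpace ℂ (Fin (Module.finrank ℂ V)) ≃ₗ[ℂ] V :=
    LinearEquiv.ofFinrankEq _ _ (by simp)
  refine ⟨A.restrictScalars ℝ, fun z => ?_⟩
  show A (Complex.I • z) = J (A z)
  rw [map_smul, hsm]
  show φ Complex.I (A z) = J (A z)
  have : φ Complex.I = J := by
    show Complex.lift ⟨J, hJ2⟩ Complex.I = J
    simp
  rw [this]

variable {E : Type*} [NormedAddCommGroup E] [InnerProductSpace ℝ E] [FiniteDimensional ℝ E]

/-- **Bounded maps.**  Maps of a real space with a complex structure. -/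
theorem exists_cx (V : Submodule ℝ E) (J : E →ₗ[ℝ] E) (hJ : ∀ v ∈ V, J v ∈ V)
    (hJ2 : ∀ v ∈ V, J (J v) = -v) (hdim : 3 ≤ Module.finrank ℝ V) (K : ℝ) :
    ∃ (N : E → ℝ) (c C₁ : ℝ), 0 < c ∧ 0 < C₁ ∧ N 0 = 0 ∧ (∀ v, N v ≤ c * ‖v‖) ∧
    ∀ R > 0, ∀ (h : E → E) (L : E → E →ₗ[ℝ] E), h 0 = 0 → (∀ v ∈ V, N v < R → h v ∈ V) →
      (∀ v₀ ∈ V, N v₀ < R → (∀ w ∈ V, L v₀ w ∈ V) ∧ (∀ w ∈ V, L v₀ (J w) = J (L v₀ w)) ∧
        (∀ w ∈ V, L v₀ w = 0 → w = 0) ∧
        (∀ u ∈ V, ∀ w ∈ V, ‖L v₀ u‖ * ‖w‖ ≤ K * (‖L v₀ w‖ * ‖u‖)) ∧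
        ∀ η > 0, ∃ ρ > 0, ∀ v ∈ V, N v < R → ‖v - v₀‖ ≤ ρ →
          ‖h v - h v₀ - L v₀ (v - v₀)‖ ≤ η * ‖v - v₀‖) →
      (∀ w ∈ V, L 0 w = w) → ∀ v ∈ V, N v < R → ‖h v‖ ≤ C₁ * R := by
  let JV : V →ₗ[ℝ] V := LinearMap.restrict J hJ
  obtain ⟨m, hm, A, hA⟩ := exists_cx_iso V JV (fun v => Subtype.ext (hJ2 v v.2))
  set W := EuclideanSpace ℂ (Fin m) with hW
  let A' : W →L[ℝ] E := LinearMap.toContinuousLinearMap (V.subtype.comp (A : W →ₗ[ℝ] V))
  let B : E →L[ℝ] W := (LinearMap.toContinuousLinearMap (A.symm : V →ₗ[ℝ] W)).comp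
    V.orthogonalProjectionOnto
  have hA'V : ∀ z, A' z ∈ V := fun z => (A z).2
  have hBv : ∀ (v : E) (hv : v ∈ V), B v = A.symm ⟨v, hv⟩ := by
    intro v hv
    show A.symm (V.orthogonalProjectionOnto v) = _
    congr 1
    exact Submodule.orthogonalProjectionOnto_mem_subspace_eq_self (⟨v, hv⟩ : V)
  have hBA : ∀ z, B (A' z) = z := by
    intro z
    rw [hBv _ (hA'V z)]
    exact A.symm_apply_apply z
  have hAB : ∀ v ∈ V, A' (B v) = v := by
    intro v hv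
    rw [hBv v hv]
    show ((A (A.symm ⟨v, hv⟩) : V) : E) = v
    rw [A.apply_symm_apply]
  have hA'I : ∀ z, A' (Complex.I • z) = J (A' z) := by
    intro z
    show ((A (Complex.I • z) : V) : E) = J (A z : V)
    rw [hA]
    rfl
  have hBI : ∀ v ∈ V, B (J v) = Complex.I • B v := by
    intro v hv
    have := hA'I (B v)
    rw [hAB v hv] at this
    rw [← this, hBA]
  set K₂ := max 1 (‖B‖ ^ 2 * ‖A'‖ ^ 2 * |K|) with hK₂
  have hK₂1 : 1 ≤ K₂ := le_max_left _ _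
  set C₀ := K₂ * Real.exp (240 * K₂ ^ 5) with hC₀
  have hC₀0 : 0 < C₀ := by positivity
  refine ⟨fun v => ‖B v‖, ‖B‖ + 1, ‖A'‖ * C₀ + 1, by positivity, by positivity, by simp,
    fun v => ?_, ?_⟩
  · refine (B.le_opNorm v).trans ?_
    gcongr
    linarith
  intro R hR h L h0 hmem hL hL0 v hv hvR
  -- the derivative as a complex linear map
  have hsmul : ∀ (f : W →ₗ[ℝ] W), (∀ w, f (Complex.I • w) = Complex.I • f w) →
      ∀ (c : ℂ) (w : W), f (c • w) = c • f w := by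
    intro f hf c w
    have e : ∀ u : W, c • u = c.re • u + c.im • (Complex.I • u) := by
      intro u
      conv_lhs => rw [← Complex.re_add_im c]
      rw [add_smul, mul_smul]
      rfl
    rw [e, e (f w), map_add, map_smul, map_smul, hf]
  have hLt : ∀ z : W, ‖z‖ < 1 → ∃ T : W →L[ℂ] W, (∀ w, T w = R • B (L (A' (R • z)) (A' w))) ∧
      HasFDerivAt (𝕜 := ℂ) (fun z => B (h (A' (R • z)))) T z := by
    intro z hz
    have hNz : ‖B (A' (R • z))‖ < R := by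
      rw [hBA, norm_smul, Real.norm_eq_abs, abs_of_pos hR]
      nlinarith
    obtain ⟨l1, l2, l3, l4, l5⟩ := hL (A' (R • z)) (hA'V _) hNz
    let T₀ : W →ₗ[ℝ] W := R • ((B : E →ₗ[ℝ] W).comp ((L (A' (R • z))).comp (A' : W →ₗ[ℝ] E)))
    have hT₀ : ∀ w, T₀ w = R • B (L (A' (R • z)) (A' w)) := fun w => rfl
    have hT₀I : ∀ w, T₀ (Complex.I • w) = Complex.I • T₀ w := by
      intro w
      rw [hT₀, hT₀, hA'I, l2 _ (hA'V w), hBI _ (l1 _ (hA'V w)), smul_comm]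
    let T₁ : W →ₗ[ℂ] W :=
      { toFun := T₀, map_add' := map_add T₀, map_smul' := hsmul T₀ hT₀I }
    let T : W →L[ℂ] W := LinearMap.toContinuousLinearMap T₁
    have hT : ∀ w, T w = R • B (L (A' (R • z)) (A' w)) := fun w => hT₀ w
    refine ⟨T, hT, ?_⟩
    rw [hasFDerivAt_iff_isLittleO, Asymptotics.isLittleO_iff]
    intro η hη
    set Q := (‖B‖ + 1) * ((‖A'‖ + 1) * R) with hQ
    have hQ0 : 0 < Q := by positivity
    obtain ⟨ρ, hρ, hρ'⟩ := l5 (η / Q) (by positivity)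
    have hδ : 0 < min (ρ / ((‖A'‖ + 1) * R)) (1 - ‖z‖) := lt_min (by positivity) (by linarith)
    filter_upwards [Metric.ball_mem_nhds z hδ] with w hw
    rw [mem_ball, dist_eq_norm, lt_min_iff] at hw
    have hw1 : ‖w‖ < 1 := by
      have := norm_add_le (w - z) z
      rw [sub_add_cancel] at this
      linarith [hw.2]
    have hNw : ‖B (A' (R • w))‖ < R := by
      rw [hBA, norm_smul, Real.norm_eq_abs, abs_of_pos hR]
      nlinarith
    have e1 : A' (R • w) - A' (R • z) = R • A' (w - z) := by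
      rw [← map_sub, ← smul_sub, map_smul]
    have e2 : ‖A' (R • w) - A' (R • z)‖ ≤ (‖A'‖ + 1) * R * ‖w - z‖ := by
      rw [e1, norm_smul, Real.norm_eq_abs, abs_of_pos hR]
      have h3 := A'.le_opNorm (w - z)
      have h4 : ‖A'‖ * ‖w - z‖ ≤ (‖A'‖ + 1) * ‖w - z‖ := by gcongr; linarith
      calc R * ‖A' (w - z)‖ ≤ R * ((‖A'‖ + 1) * ‖w - z‖) :=
            mul_le_mul_of_nonneg_left (h3.trans h4) hR.le
        _ = _ := by ring
    have e3 : ‖A' (R • w) - A' (R • z)‖ ≤ ρ := by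
      refine e2.trans ?_
      have := hw.1
      rw [lt_div_iff₀ (by positivity)] at this
      linarith
    have e4 := hρ' (A' (R • w)) (hA'V _) hNw e3
    have e5 : B (h (A' (R • w))) - B (h (A' (R • z))) - T (w - z) =
        B (h (A' (R • w)) - h (A' (R • z)) -
          L (A' (R • z)) (A' (R • w) - A' (R • z))) := by
      have e6 : L (A' (R • z)) (R • A' (w - z)) = R • L (A' (R • z)) (A' (w - z)) :=
        map_smul _ _ _
      rw [hT, e1, e6, map_sub B, map_sub B, map_smul B]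
    rw [e5]
    calc _ ≤ ‖B‖ * ‖h (A' (R • w)) - h (A' (R • z)) -
          L (A' (R • z)) (A' (R • w) - A' (R • z))‖ := B.le_opNorm _
      _ ≤ (‖B‖ + 1) * (η / Q * ((‖A'‖ + 1) * R * ‖w - z‖)) := by
          refine mul_le_mul (by linarith) ?_ (norm_nonneg _) (by positivity)
          exact e4.trans (mul_le_mul_of_nonneg_left e2 (by positivity))
      _ = η * ‖w - z‖ := by
          have e7 : (‖B‖ + 1) * (η / Q * ((‖A'‖ + 1) * R * ‖w - z‖)) =
              η * ‖w - z‖ * (((‖B‖ + 1) * ((‖A'‖ + 1) * R)) / Q) := by ring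
          rw [e7, ← hQ, div_self hQ0.ne', mul_one]
  have hdim' : 2 ≤ Module.finrank ℂ W := by
    have : Module.finrank ℂ W = m := by
      show Module.finrank ℂ (EuclideanSpace ℂ (Fin m)) = m
      rw [finrank_euclideanSpace, Fintype.card_fin]
    omega
  have hd : DifferentiableOn ℂ (fun z => B (h (A' (R • z)))) (ball (0 : W) 1) := by
    intro z hz
    obtain ⟨T, -, hT⟩ := hLt z (mem_ball_zero_iff.mp hz)
    exact hT.differentiableAt.differentiableWithinAt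
  have hN : ∀ z : W, ‖z‖ < 1 → ‖B (A' (R • z))‖ < R := by
    intro z hz
    rw [hBA, norm_smul, Real.norm_eq_abs, abs_of_pos hR]
    nlinarith
  have key := bounded_map (h := fun z => B (h (A' (R • z)))) hK₂1 hdim' hd
    (by
      intro z hz w hw
      rw [mem_ball_zero_iff] at hz
      obtain ⟨T, hT1, hT2⟩ := hLt z hz
      obtain ⟨l1, l2, l3, l4, l5⟩ := hL (A' (R • z)) (hA'V _) (hN z hz)
      rw [hT2.fderiv, hT1] at hw
      have h2 : B (L (A' (R • z)) (A' w)) = 0 := (smul_eq_zero.mp hw).resolve_left hR.ne'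
      have h3 : L (A' (R • z)) (A' w) = 0 := by
        rw [← hAB _ (l1 _ (hA'V w)), h2, map_zero]
      have h4 := l3 _ (hA'V w) h3
      rw [← hBA w, h4, map_zero])
    (by
      intro z hz u w
      rw [mem_ball_zero_iff] at hz
      obtain ⟨T, hT1, hT2⟩ := hLt z hz
      obtain ⟨l1, l2, l3, l4, l5⟩ := hL (A' (R • z)) (hA'V _) (hN z hz)
      rw [hT2.fderiv, hT1, hT1, norm_smul, norm_smul, Real.norm_eq_abs, abs_of_pos hR]
      set Lz := L (A' (R • z)) with hLz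
      have b1 : ‖B (Lz (A' u))‖ ≤ ‖B‖ * ‖Lz (A' u)‖ := B.le_opNorm _
      have b2 : ‖w‖ ≤ ‖B‖ * ‖A' w‖ := by
        conv_lhs => rw [← hBA w]
        exact B.le_opNorm _
      have b3 := l4 _ (hA'V u) _ (hA'V w)
      have b4 : ‖Lz (A' w)‖ ≤ ‖A'‖ * ‖B (Lz (A' w))‖ := by
        conv_lhs => rw [← hAB _ (l1 _ (hA'V w))]
        exact A'.le_opNorm _
      have b5 := A'.le_opNorm u
      have b6 : ‖B (Lz (A' u))‖ * ‖w‖ ≤ K₂ * (‖B (Lz (A' w))‖ * ‖u‖) := by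
        calc ‖B (Lz (A' u))‖ * ‖w‖ ≤ (‖B‖ * ‖Lz (A' u)‖) * (‖B‖ * ‖A' w‖) := by gcongr
          _ = ‖B‖ ^ 2 * (‖Lz (A' u)‖ * ‖A' w‖) := by ring
          _ ≤ ‖B‖ ^ 2 * (|K| * (‖Lz (A' w)‖ * ‖A' u‖)) := by
              refine mul_le_mul_of_nonneg_left (b3.trans ?_) (by positivity)
              exact mul_le_mul_of_nonneg_right (le_abs_self _) (by positivity)
          _ ≤ ‖B‖ ^ 2 * (|K| * ((‖A'‖ * ‖B (Lz (A' w))‖) * (‖A'‖ * ‖u‖))) := by gcongr
          _ = (‖B‖ ^ 2 * ‖A'‖ ^ 2 * |K|) * (‖B (Lz (A' w))‖ * ‖u‖) := by ring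
          _ ≤ _ := mul_le_mul_of_nonneg_right (le_max_right _ _) (by positivity)
      calc R * ‖B (Lz (A' u))‖ * ‖w‖ = R * (‖B (Lz (A' u))‖ * ‖w‖) := by ring
        _ ≤ R * (K₂ * (‖B (Lz (A' w))‖ * ‖u‖)) := mul_le_mul_of_nonneg_left b6 hR.le
        _ = _ := by ring)
    (R⁻¹ • B v) (by
      rw [mem_ball_zero_iff, norm_smul, norm_inv, Real.norm_eq_abs, abs_of_pos hR,
        inv_mul_lt_iff₀ hR, mul_one]
      exact hvR)
  have hz0 : fderiv ℂ (fun z => B (h (A' (R • z)))) (0 : W) =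
      (R : ℂ) • ContinuousLinearMap.id ℂ W := by
    obtain ⟨T, hT1, hT2⟩ := hLt 0 (by simp)
    rw [hT2.fderiv]
    refine ContinuousLinearMap.ext fun w => ?_
    rw [hT1, smul_zero, map_zero, hL0 _ (hA'V w), hBA]
    simp
  have hz0n : ‖fderiv ℂ (fun z => B (h (A' (R • z)))) (0 : W)‖ ≤ R := by
    rw [hz0, norm_smul, Complex.norm_real, Real.norm_eq_abs, abs_of_pos hR]
    have := ContinuousLinearMap.norm_id_le (𝕜 := ℂ) (E := W)
    nlinarith
  simp only [smul_zero, map_zero, h0, sub_zero] at key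
  rw [smul_smul, mul_inv_cancel₀ hR.ne', one_smul, hAB v hv] at key
  have k1 : ‖h v‖ ≤ ‖A'‖ * ‖B (h v)‖ := by
    conv_lhs => rw [← hAB _ (hmem v hv hvR)]
    exact A'.le_opNorm _
  calc ‖h v‖ ≤ ‖A'‖ * ‖B (h v)‖ := k1
    _ ≤ ‖A'‖ * (C₀ * R) := by
        refine mul_le_mul_of_nonneg_left ?_ (norm_nonneg _)
        exact key.trans (mul_le_mul_of_nonneg_left hz0n hC₀0.le)
    _ ≤ (‖A'‖ * C₀ + 1) * R := by nlinarith

end Pool.Agent.Q130.AN
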