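import Pool.Agent.Q130.AN.Tr3
import Pool.Agent.H779R2.An.CChart
import Pool.Agent.H779R2.An.CSeg
import Pool.Agent.H779R2.An.MainA

set_option autoImplicit false
set_option linter.unusedSectionVars false

open scoped Manifold ContDiff Topology Bundle
open Set Filter Bundle

namespace Pool.Agent.Q130.AN

open Pool.Agent.H721R2 Pool.Agent.H779R2.An Pool.Agent.H789R2.AN

/-- Abstract theorem: quasiconformality on one bundle, with a complex structure of real rank at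
least three. -/
theorem abstract_cx {X E : Type*} [MetricSpace X] [CompactSpace X] [NormedAddCommGroup E]
    [InnerProductSpace ℝ E] [FiniteDimensional ℝ E] [PreconnectedSpace X] (S : HypSys X E)
    {Q r K : ℝ} (hQ : Quad S Q r) (hK : QC S K) (J₀ : CJ0 S) (D d : ℕ) (hD : 3 ≤ D)
    (hfu : ∀ x, Module.finrank ℝ (S.Vu x) = D) (hfs : ∀ x, Module.finrank ℝ (S.Vs x) = d)
    (U V : Set X) (hU : IsOpen U) (hUn : U.Nonempty) (hV : IsOpen V) (hVn : V.Nonempty) :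
    ∃ n : ℕ, (S.g^[n] '' U ∩ V).Nonempty := by
  obtain ⟨Lc, a1, a2, a3⟩ := hasLc S hQ hK
  obtain ⟨τ, b1, b2, b3⟩ := hasTau S hQ hK
  obtain ⟨H, c1, c2, c3⟩ := hasHol S hQ hK
  obtain ⟨L⟩ := exists_lin1 (S := S) ⟨K, hK, Lc, a1, a2, a3, τ, b1, b2, b3, H, c1, c2, c3⟩
  obtain ⟨F⟩ := exists_flat L
  obtain ⟨J⟩ := exists_cj F J₀
  have hCD := cd F
  have hseg : SegProp S := seg_of_chart (chart_prop S d hfs)
  have hlin0 := lin_all F J (fun x => by rw [hfu]; exact hD) hseg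
  apply transitive_of_no_trap S _ U V hU hUn hV hVn
  intro W hW hne htrap
  by_contra hnu
  obtain ⟨R, hR, hRW⟩ := exists_minR S W hW hne hnu htrap
  have hlin : LinProp F R := by
    obtain ⟨ε, hε, h⟩ := hlin0
    exact ⟨ε, hε, fun x _ => h x (Set.mem_univ x)⟩
  have hlin' := lin' F hCD hlin
  have hcov := cover F hR hlin' hseg
  exact trap_contra hR hRW hW hne htrap hcov

/-- Anosov diffeomorphisms that are uniformly quasiconformal on one bundle of rank at least three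
with a continuous invariant complex structure are transitive. -/
theorem main_cx (E : Type*) [NormedAddCommGroup E] [NormedSpace ℝ E] [FiniteDimensional ℝ E]
    (M : Type*) [TopologicalSpace M] [T2Space M] [CompactSpace M] [ConnectedSpace M]
    [ChartedSpace E M] [IsManifold 𝓘(ℝ, E) ∞ M] (f : Diffeomorph 𝓘(ℝ, E) 𝓘(ℝ, E) M M 1)
    (hf2 : ContMDiff 𝓘(ℝ, E) 𝓘(ℝ, E) 2 f) (hf2' : ContMDiff 𝓘(ℝ, E) 𝓘(ℝ, E) 2 f.symm)
    (Es Eu : ∀ x : M, Submodule ℝ (TangentSpace 𝓘(ℝ, E) x)) (hA : IsAnosov f Es Eu)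
    (N : TangentBundle 𝓘(ℝ, E) M → ℝ) (hN : IsTangentNorm N)
    (ds du : ℕ) (hds : ∀ x, Module.finrank ℝ (Es x) = ds)
    (hdu : ∀ x, Module.finrank ℝ (Eu x) = du)
    (hJ : (3 ≤ du ∧ UniformlyQC f N Eu ∧ ∃ J, InvComplexOn f Eu J) ∨
      (3 ≤ ds ∧ UniformlyQC f N Es ∧ ∃ J, InvComplexOn f Es J)) :
    TopTransitive f := by
  obtain ⟨m, e, he, hemb, hinj⟩ := exists_embedding_euclidean_of_compact (I := 𝓘(ℝ, E)) (M := M)
  let _ : MetricSpace M := hemb.isEmbedding.comapMetricSpace e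
  have hiso : ∀ x y : M, dist x y = ‖e x - e y‖ := fun x y => dist_eq_norm (e x) (e y)
  have he1 : ContMDiff 𝓘(ℝ, E) (𝓡 m) 1 e := he.of_le (by simp)
  have he2 : ContMDiff 𝓘(ℝ, E) (𝓡 m) 2 e := he.of_le (by
    exact_mod_cast (ENat.LEInfty.out : (2 : WithTop ℕ∞) ≤ ∞))
  obtain ⟨C', a, b, Ls, Lu, hE⟩ := eanosov_of_isAnosov e he1 hinj f Es Eu hA
  obtain ⟨K, hK, hang⟩ := hE.angle he1 hinj
  have t1 : Tendsto (fun n : ℕ => K * (C' * a ^ n)) atTop (𝓝 0) := by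
    have := ((tendsto_pow_atTop_nhds_zero_of_lt_one hE.a_pos.le hE.a_lt).const_mul C').const_mul K
    simpa using this
  have t2 : Tendsto (fun n : ℕ => K * (C' * b ^ n)) atTop (𝓝 0) := by
    have := ((tendsto_pow_atTop_nhds_zero_of_lt_one hE.b_pos.le hE.b_lt).const_mul C').const_mul K
    simpa using this
  obtain ⟨n, hn1, hn2⟩ := (((tendsto_order.mp t1).2 (1 / 16) (by norm_num)).and
    ((tendsto_order.mp t2).2 (1 / 16) (by norm_num))).exists
  obtain ⟨S, hS⟩ := exists_realizes hiso he1 hinj hE K hK hang n hn1.le hn2.le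
  obtain ⟨Q, r, hQ⟩ := quad_of_realizes hiso he2 hinj hE hf2 hf2' hS
  have hfin : ∀ (x : M) (V : Submodule ℝ E),
      Module.finrank ℝ (V.map (dm E e x).toLinearMap) = Module.finrank ℝ V := fun x V =>
    (LinearEquiv.finrank_eq (Submodule.equivMapOfInjective (dm E e x).toLinearMap (hinj x) V)).symm
  have hfs : ∀ x, Module.finrank ℝ (S.Vs x) = ds := fun x => by
    rw [hS.Vs_eq, hfin]; exact hds x
  have hfu : ∀ x, Module.finrank ℝ (S.Vu x) = du := fun x => by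
    rw [hS.Vu_eq, hfin]; exact hdu x
  have hgn : ∀ (k : ℕ) (x : M), (S.g^[k]) x = f^[n * k] x := by
    intro k x
    rw [hS.g_eq, Function.iterate_mul]
    rfl
  intro U V hU hUn hV hVn
  rcases hJ with ⟨hle, ⟨Ku, hKu⟩, J, hJ⟩ | ⟨hle, ⟨Ks, hKs⟩, J, hJ⟩
  · obtain ⟨K1, hK1⟩ := qc_of_realizes hN he1 hinj hE (K := Ku) (fun n x v hv w hw =>
      hKu n x v hv w hw) hS
    obtain ⟨J₀⟩ := cj0_of_realizes hiso he1 hinj hE J hJ hS
    obtain ⟨k, hk⟩ := abstract_cx S hQ hK1 J₀ du ds hle hfu hfs U V hU hUn hV hVn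
    refine ⟨n * k, ?_⟩
    have : (S.g^[k]) = (f^[n * k]) := funext (hgn k)
    rwa [this] at hk
  · obtain ⟨K2, hK2⟩ := qc_of_realizes hN he1 hinj hE.symm (K := Ks)
      (qc_inverse hN hE (fun n x v hv w hw => hKs n x v hv w hw)) hS.symm
    obtain ⟨J₀⟩ := cj0_of_realizes hiso he1 hinj hE.symm J (invComplexOn_symm hE hJ) hS.symm
    obtain ⟨k, hk⟩ := abstract_cx S.symm hQ.symm hK2 J₀ ds du hle hfs hfu V U hV hVn
      hU hUn
    refine ⟨n * k, ?_⟩
    obtain ⟨y, ⟨x, hx, hxy⟩, hy⟩ := hk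
    refine ⟨x, ⟨y, hy, ?_⟩, hx⟩
    rw [← hgn, ← hxy]
    exact iter_iter_symm S k x

end Pool.Agent.Q130.AN
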