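import Pool.Agent.Q130.AN.PA2

set_option autoImplicit false

/-!
Bounded distortion at the periodic points implies bounded distortion everywhere, without any
recurrence assumption.
-/

open Filter Topology Set Metric

namespace Pool.Agent.Q130.AN

open Pool.Agent.H789R2.AN Pool.Agent.H721R2 Pool.Agent.H779R2.An Pool.Agent.Y321.PD
  Pool.Agent.Y321.PJ

section clos

variable {X : Type*} [MetricSpace X] {E : Type*} [NormedAddCommGroup E] [NormedSpace ℝ E]

/-- Closing one orbit segment, given a way back. -/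
theorem closing_core [CompactSpace X] (S : HypSys X E) {c : ℝ} (h : LP S.g c) :
    ∃ ε > 0, ∀ (x w : X) (n m : ℕ), 1 ≤ m → dist (S.g^[n] x) w ≤ ε → dist (S.g^[m] w) x ≤ ε →
      ∃ p, S.g^[n + m] p = p ∧
      ∀ i ≤ n, dist (S.g^[i] x) (S.g^[i] p) ≤ c * (1 / 2) ^ i + c * (1 / 2) ^ (n - i) := by
  have hK := S.one_le_K
  have hK0 : 0 < S.K := by linarith
  have hc := h.c_pos
  obtain ⟨ε₀, hε₀, hper⟩ := per_shadow S h
  obtain ⟨δ, hδ, hlp⟩ := h.lp (c / 2) (by linarith)
  set ρ := min δ (c / 2) with hρ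
  have hρ0 : 0 < ρ := lt_min hδ (by linarith)
  set ε := min (ε₀ / 2) (ρ / (18 * S.K)) with hε
  have hε0 : 0 < ε := lt_min (by linarith) (by positivity)
  have hε1 : 2 * ε ≤ ε₀ := by
    have : ε ≤ ε₀ / 2 := min_le_left _ _
    linarith
  have hε2 : 18 * S.K * ε ≤ ρ := by
    have : ε ≤ ρ / (18 * S.K) := min_le_right _ _
    rw [le_div_iff₀ (by positivity)] at this
    linarith
  have hKε : ε ≤ S.K * ε := by nlinarith
  refine ⟨ε, hε0, fun x w n m hm1 hw1 hw2 => ?_⟩
  rw [dist_comm] at hw1
  let z : ℕ → X := fun i => if i < n then S.g^[i] x else S.g^[i - n] w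
  have hz1 : ∀ i, i < n → z i = S.g^[i] x := fun i hi => if_pos hi
  have hz2 : ∀ i, n ≤ i → z i = S.g^[i - n] w := fun i hi => if_neg (by omega)
  obtain ⟨p, hp, hpz⟩ := hper (2 * ε) hε1 (n + m) z (by omega) (by
    intro i hi
    rcases lt_trichotomy (i + 1) n with h1 | h1 | h1
    · rw [hz1 i (by omega), hz1 (i + 1) h1, Function.iterate_succ_apply', dist_self]
      linarith
    · rw [hz1 i (by omega), hz2 (i + 1) (by omega), ← Function.iterate_succ_apply' S.g i x,
        h1, Nat.sub_self, dist_comm]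
      have : S.g^[i.succ] x = S.g^[n] x := by rw [← h1]
      rw [this]
      simp only [Function.iterate_zero, id_eq]
      linarith
    · rw [hz2 i (by omega), hz2 (i + 1) (by omega)]
      have : i + 1 - n = (i - n) + 1 := by omega
      rw [this, Function.iterate_succ_apply', dist_self]
      linarith) (by
    rw [hz2 (n + m - 1) (by omega)]
    have e1 : S.g (S.g^[n + m - 1 - n] w) = S.g^[m] w := by
      rw [← Function.iterate_succ_apply' S.g]
      congr 2
      omega
    rw [e1]
    rcases Nat.eq_zero_or_pos n with h0 | h0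
    · rw [hz2 0 (by omega), h0]
      rw [h0] at hw1
      simp only [Function.iterate_zero, id_eq, Nat.sub_zero] at hw1 ⊢
      have := dist_triangle (S.g^[m] w) x w
      rw [dist_comm x w] at this
      linarith
    · rw [hz1 0 h0]
      simp only [Function.iterate_zero, id_eq]
      linarith)
  have hclose : ∀ i ≤ n, dist (S.g^[i] x) (S.g^[i] p) ≤ 17 * S.K * ε := by
    intro i hi
    have h1 := hpz i (by omega)
    rw [dist_comm]
    rcases lt_or_eq_of_le hi with h2 | h2
    · rw [hz1 i h2] at h1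
      linarith
    · rw [hz2 i (by omega), h2, Nat.sub_self] at h1
      simp only [Function.iterate_zero, id_eq] at h1
      rw [h2]
      have := dist_triangle (S.g^[n] p) w (S.g^[n] x)
      linarith
  have hρδ : ρ ≤ δ := min_le_left _ _
  have hρc : ρ ≤ c / 2 := min_le_right _ _
  have hlt : 17 * S.K * ε < 18 * S.K * ε := by nlinarith [mul_pos hK0 hε0]
  refine ⟨p, hp, ?_⟩
  have h3 : dist (S.g^[n] p) (S.g^[n] x) < δ := by
    have := hclose n le_rfl
    rw [dist_comm]
    linarith
  obtain ⟨z', hz'1, hz'2⟩ := hlp _ _ h3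
  have hz'3 := h.cU _ _ (hz'2.mono (by linarith))
  have eback : ∀ (y : X) (i : ℕ), i ≤ n → S.g^[i] (S.g.symm^[n] y) = S.g.symm^[n - i] y := by
    intro y i hi
    have : S.g.symm^[n] y = S.g.symm^[i] (S.g.symm^[n - i] y) := by
      rw [← Function.iterate_add_apply]; congr 1; omega
    rw [this, iterR]
  have eback' : ∀ (y : X) (i : ℕ), i ≤ n → S.g.symm^[n - i] (S.g^[n] y) = S.g^[i] y := by
    intro y i hi
    have : S.g^[n] y = S.g^[n - i] (S.g^[i] y) := by
      rw [← Function.iterate_add_apply]; congr 1; omega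
    rw [this, iterL]
  have hSR : SR S.g c p (S.g.symm^[n] z') := by
    intro k
    rcases le_total k n with hk | hk
    · rw [eback _ _ hk]
      have h4 := hz'2 (n - k)
      rw [eback' _ _ hk] at h4
      have h5 := hclose k hk
      have := dist_triangle (S.g^[k] p) (S.g^[k] x) (S.g.symm^[n - k] z')
      rw [dist_comm (S.g^[k] x) (S.g^[k] p)] at h5
      linarith
    · have h4 := hz'1 (k - n)
      have e1 : S.g^[k - n] (S.g^[n] p) = S.g^[k] p := by
        rw [← Function.iterate_add_apply]; congr 1; omega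
      have e2 : S.g^[k] (S.g.symm^[n] z') = S.g^[k - n] z' := by
        have : S.g^[k] (S.g.symm^[n] z') = S.g^[k - n] (S.g^[n] (S.g.symm^[n] z')) := by
          rw [← Function.iterate_add_apply S.g (k - n) n]; congr 1; omega
        rw [this, iterR]
      rw [e1] at h4
      rw [e2]
      linarith
  intro i hi
  have h4 := h.cS _ _ hSR i
  rw [eback _ _ hi] at h4
  have h5 := hz'3 (n - i)
  rw [eback' _ _ hi] at h5
  have := dist_triangle (S.g^[i] x) (S.g.symm^[n - i] z') (S.g^[i] p)
  rw [dist_comm (S.g.symm^[n - i] z') (S.g^[i] p)] at this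
  linarith

/-- Finitely many labels. -/
theorem exists_label [CompactSpace X] {ε : ℝ} (hε : 0 < ε) :
    ∃ (N : ℕ) (c : X → Fin N), ∀ x y, c x = c y → dist x y ≤ ε := by
  classical
  obtain ⟨t, -, ht⟩ := (isCompact_univ (X := X)).elim_nhds_subcover (fun x => ball x (ε / 2))
    (fun x _ => ball_mem_nhds x (by positivity))
  have hc : ∀ x : X, ∃ y : t, x ∈ ball (y : X) (ε / 2) := by
    intro x
    have := ht (mem_univ x)
    simp only [mem_iUnion] at this
    obtain ⟨y, hy, hxy⟩ := this
    exact ⟨⟨y, hy⟩, hxy⟩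
  choose c hc using hc
  refine ⟨Fintype.card t, fun x => Fintype.equivFin t (c x), fun x y hxy => ?_⟩
  have h1 : c x = c y := (Fintype.equivFin t).injective hxy
  have h2 := hc x
  have h3 := hc y
  rw [← h1] at h3
  rw [mem_ball] at h2 h3
  have := dist_triangle_right x y (c x : X)
  linarith

/-- Closing orbit segments of periodic orbits. -/
theorem per_closing [CompactSpace X] (S : HypSys X E) {c : ℝ} (h : LP S.g c) :
    ∃ N : ℕ, ∀ (x : X) (n : ℕ), x ∈ {p | ∃ q, 1 ≤ q ∧ S.g^[q] p = p} →
      ∃ m ≤ N, ∃ p ∈ {p | ∃ q, 1 ≤ q ∧ S.g^[q] p = p}, 1 ≤ n + m ∧ S.g^[n + m] p = p ∧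
      ∀ i ≤ n, dist (S.g^[i] x) (S.g^[i] p) ≤ c * (1 / 2) ^ i + c * (1 / 2) ^ (n - i) := by
  classical
  obtain ⟨ε, hε, hcl⟩ := closing_core S h
  obtain ⟨M, lab, hlab⟩ := exists_label (X := X) hε
  -- connecting times
  have hconn : ∀ a b : Fin M, ∃ t : ℕ, (∃ (z : X) (m : ℕ), 1 ≤ m ∧ lab z = a ∧
      lab (S.g^[m] z) = b) → (∃ z : X, 1 ≤ t ∧ lab z = a ∧ lab (S.g^[t] z) = b) := by
    intro a b
    by_cases hz : ∃ (z : X) (m : ℕ), 1 ≤ m ∧ lab z = a ∧ lab (S.g^[m] z) = b
    · obtain ⟨z, m, h1, h2, h3⟩ := hz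
      exact ⟨m, fun _ => ⟨z, h1, h2, h3⟩⟩
    · exact ⟨0, fun h => absurd h hz⟩
  choose t ht using hconn
  refine ⟨∑ a, ∑ b, t a b, ?_⟩
  rintro x n ⟨q, hq, hqx⟩
  -- from `gⁿ x` back to `x`
  have hback : ∃ (z : X) (m : ℕ), 1 ≤ m ∧ lab z = lab (S.g^[n] x) ∧
      lab (S.g^[m] z) = lab x := by
    refine ⟨S.g^[n] x, q * (n + 1) - n, ?_, rfl, ?_⟩
    · have : n + 1 ≤ q * (n + 1) := Nat.le_mul_of_pos_left _ hq
      omega
    · rw [← Function.iterate_add_apply]
      have h1 : n + 1 ≤ q * (n + 1) := Nat.le_mul_of_pos_left _ hq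
      have h2 : q * (n + 1) - n + n = q * (n + 1) := by omega
      rw [h2, Function.iterate_mul, Function.iterate_fixed hqx]
  obtain ⟨z, hm1, hz1, hz2⟩ := ht _ _ hback
  obtain ⟨p, hp, hd⟩ := hcl x z n (t (lab (S.g^[n] x)) (lab x)) hm1 (hlab _ _ hz1.symm)
    (hlab _ _ hz2)
  refine ⟨t (lab (S.g^[n] x)) (lab x), ?_, p, ⟨_, by omega, hp⟩, by omega, hp, hd⟩
  calc t (lab (S.g^[n] x)) (lab x) ≤ ∑ b, t (lab (S.g^[n] x)) b :=
        Finset.single_le_sum (f := fun b => t (lab (S.g^[n] x)) b) (fun _ _ => Nat.zero_le _)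
          (Finset.mem_univ _)
    _ ≤ ∑ a, ∑ b, t a b :=
        Finset.single_le_sum (f := fun a => ∑ b, t a b) (fun _ _ => Nat.zero_le _)
          (Finset.mem_univ _)

end clos

section main

variable {X E : Type*} [MetricSpace X] [CompactSpace X] [NormedAddCommGroup E]
  [InnerProductSpace ℝ E] [FiniteDimensional ℝ E]

/-- **Bounded distortion from the periodic points**, for general hyperbolic systems. -/
theorem qc_of_per_all (S : HypSys X E) {Q r : ℝ} (hQ : Quad S Q r)
    {K₀ : ℝ} (hper : ∀ (n : ℕ) (p : X), 1 ≤ n → S.g^[n] p = p → QA S n p K₀) :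
    ∃ K, QC S K := by
  set L : Set X := {p | ∃ q, 1 ≤ q ∧ S.g^[q] p = p} with hL
  have hLg : ∀ x ∈ L, S.g x ∈ L := by
    rintro x ⟨q, hq, hqx⟩
    refine ⟨q, hq, ?_⟩
    rw [← Function.iterate_succ_apply, Function.iterate_succ_apply', hqx]
  obtain ⟨c₀, hc₀, hLP⟩ := exists_LP_small S
  obtain ⟨K₁', hK₁'⟩ := qc_of_closing_on S L hLg hQ hc₀
    (fun δ hδ hδ' => per_closing S (hLP δ hδ hδ')) hper
  -- a bound `KP ≥ 1` on the periodic orbits
  set KP := max K₁' 1 with hKP
  have hKP1 : 1 ≤ KP := le_max_right _ _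
  have hKPb : ∀ (n : ℕ) (x : X), x ∈ L → QA S n x KP := fun n x hx =>
    (hK₁' n x hx).mono (le_max_left _ _)
  obtain ⟨ρ, hρ, C, hC, hkey⟩ := key2 S hQ
  -- the scale
  obtain ⟨c, hc, hcc, hcρ, hcC⟩ : ∃ c > 0, c ≤ c₀ ∧ 2 * c < ρ ∧ C * (4 * c * KP) ≤ 1 / 2 := by
    refine ⟨min c₀ (min (ρ / 4) (1 / (8 * (C + 1) * KP))), ?_, min_le_left _ _, ?_, ?_⟩
    · exact lt_min hc₀ (lt_min (by positivity) (by positivity))
    · have : min c₀ (min (ρ / 4) (1 / (8 * (C + 1) * KP))) ≤ ρ / 4 :=
        (min_le_right _ _).trans (min_le_left _ _)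
      linarith
    · set c := min c₀ (min (ρ / 4) (1 / (8 * (C + 1) * KP))) with hcdef
      have h1 : c ≤ 1 / (8 * (C + 1) * KP) := (min_le_right _ _).trans (min_le_right _ _)
      have hc0 : 0 < c := lt_min hc₀ (lt_min (by positivity) (by positivity))
      rw [le_div_iff₀ (by positivity)] at h1
      nlinarith [mul_pos hc0 (lt_of_lt_of_le one_pos hKP1)]
  obtain ⟨ε, hε, hcl⟩ := closing_core S (hLP c hc hcc)
  -- almost closed segments
  have hseg : ∀ (x : X) (n : ℕ), dist (S.g^[n + 1] x) x ≤ ε → QA S n x (32 * KP) := by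
    intro x n hx
    obtain ⟨p, hp, hd⟩ := hcl x (S.g^[n] x) n 1 le_rfl (by rw [dist_self]; exact hε.le) (by
      rw [Function.iterate_one, ← Function.iterate_succ_apply' S.g]
      exact hx)
    have hpL : p ∈ L := ⟨n + 1, by omega, hp⟩
    have hLu1 := S.one_le_Lu
    have hd' : ∀ i ≤ n, dist (S.g^[i] x) (S.g^[i] p) < ρ := by
      intro i hi
      have t1 := hd i hi
      have u2 : ((1:ℝ) / 2) ^ i ≤ 1 := pow_le_one₀ (by norm_num) (by norm_num)
      have u3 : ((1:ℝ) / 2) ^ (n - i) ≤ 1 := pow_le_one₀ (by norm_num) (by norm_num)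
      have u4 : c * (1 / 2) ^ i ≤ c * 1 := mul_le_mul_of_nonneg_left u2 hc.le
      have u5 : c * (1 / 2) ^ (n - i) ≤ c * 1 := mul_le_mul_of_nonneg_left u3 hc.le
      linarith
    have hstep : ∀ T : ℝ, 0 ≤ T → (∀ j ≤ n, QA S j x T) →
        ∀ j ≤ n, QA S j x (16 * KP + T / 2) := by
      intro T hT hTj j hj
      have h1 := hkey j x p (fun _ => T) (fun _ => KP) KP (fun i hi => hd' i (by omega))
        (fun _ => hT) (fun i hi => hTj i (by omega)) (fun _ => by linarith)
        (fun i l _ => hKPb l _ (iter_mem S hLg hpL _)) (by linarith) (hKPb j p hpL)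
      refine h1.mono ?_
      have h2 : ∑ i ∈ Finset.range j, dist (S.g^[i] x) (S.g^[i] p) * (T * KP) ≤
          (4 * c) * (T * KP) := by
        rw [← Finset.sum_mul]
        refine mul_le_mul_of_nonneg_right ?_ (by positivity)
        calc ∑ i ∈ Finset.range j, dist (S.g^[i] x) (S.g^[i] p)
            ≤ ∑ i ∈ Finset.range n, dist (S.g^[i] x) (S.g^[i] p) := by
              apply Finset.sum_le_sum_of_subset_of_nonneg
              · exact Finset.range_mono hj
              · intro i _ _; exact dist_nonneg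
          _ ≤ ∑ i ∈ Finset.range n, (c * (1 / 2) ^ i + c * (1 / 2) ^ (n - i)) :=
              Finset.sum_le_sum fun i hi => hd i (Finset.mem_range.mp hi).le
          _ = c * ∑ i ∈ Finset.range n, ((1:ℝ) / 2) ^ i +
              c * ∑ i ∈ Finset.range n, ((1:ℝ) / 2) ^ (n - i) := by
              rw [Finset.sum_add_distrib, Finset.mul_sum, Finset.mul_sum]
          _ ≤ c * 2 + c * 2 := by
              have s1 := sum_half n
              have s2 := sum_half' n
              gcongr
          _ = 4 * c := by ring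
      have h3 : C * ∑ i ∈ Finset.range j, dist (S.g^[i] x) (S.g^[i] p) * (T * KP) ≤
          C * ((4 * c) * (T * KP)) := mul_le_mul_of_nonneg_left h2 hC
      have h4 : C * ((4 * c) * (T * KP)) = (C * (4 * c * KP)) * T := by ring
      have h5 : (C * (4 * c * KP)) * T ≤ 1 / 2 * T := mul_le_mul_of_nonneg_right hcC hT
      linarith
    have hk : ∀ k : ℕ, ∀ j ≤ n, QA S j x (32 * KP + S.Lu ^ n * (1 / 2) ^ k) := by
      intro k
      induction k with
      | zero =>
        intro j hj
        refine (QA.triv S j x).mono ?_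
        have h1 : S.Lu ^ j ≤ S.Lu ^ n := pow_le_pow_right₀ hLu1 hj
        rw [pow_zero, mul_one]
        linarith
      | succ k ih =>
        intro j hj
        refine (hstep _ (by positivity) ih j hj).mono (le_of_eq ?_)
        rw [pow_succ]; ring
    intro v hv w hw
    have hlim : Tendsto (fun k : ℕ => (32 * KP + S.Lu ^ n * (1 / 2) ^ k) *
        (‖Dn S n x w‖ * ‖v‖)) atTop (𝓝 ((32 * KP + S.Lu ^ n * 0) * (‖Dn S n x w‖ * ‖v‖))) := by
      apply Tendsto.mul_const
      apply Tendsto.const_add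
      apply Tendsto.const_mul
      exact tendsto_pow_atTop_nhds_zero_of_lt_one (by norm_num) (by norm_num)
    rw [mul_zero, add_zero] at hlim
    exact ge_of_tendsto' hlim fun k => hk k n le_rfl v hv w hw
  -- decomposition of arbitrary segments
  obtain ⟨M, lab, hlab⟩ := exists_label (X := X) hε
  have hLu1 := S.one_le_Lu
  set D := 32 * KP * S.Lu ^ 2 with hD
  have hLu2 : 1 ≤ S.Lu ^ 2 := one_le_pow₀ hLu1
  have hD1 : 1 ≤ D := by nlinarith
  have hdec : ∀ k : ℕ, ∀ (x : X) (n : ℕ), ∀ s : Finset (Fin M), s.card = k →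
      (∀ i < n, lab (S.g^[i] x) ∈ s) → QA S n x (D ^ k) := by
    intro k
    induction k with
    | zero =>
      intro x n s hs hn
      have : n = 0 := by
        by_contra h0
        have := hn 0 (Nat.pos_of_ne_zero h0)
        rw [Finset.card_eq_zero.mp hs] at this
        simp at this
      subst this
      simpa using QA.triv S 0 x
    | succ k ih =>
      intro x n s hs hn
      rcases Nat.eq_zero_or_pos n with h0 | h0
      · subst h0
        refine (QA.triv S 0 x).mono ?_
        rw [pow_zero]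
        exact one_le_pow₀ hD1
      -- last time at which the label of `x` is seen
      classical
      set A := (Finset.range n).filter (fun i => lab (S.g^[i] x) = lab x) with hA
      have hA0 : A.Nonempty := ⟨0, by simp [hA, h0]⟩
      obtain ⟨hl1, hl2⟩ : A.max' hA0 < n ∧ lab (S.g^[A.max' hA0] x) = lab x := by
        have hmem := Finset.max'_mem A hA0
        exact ⟨Finset.mem_range.mp (Finset.mem_filter.mp hmem).1, (Finset.mem_filter.mp hmem).2⟩
      set l := A.max' hA0 with hl
      have hlast : ∀ i, l < i → i < n → lab (S.g^[i] x) ≠ lab x := by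
        intro i hi hin hi2
        have : i ≤ l := Finset.le_max' A i (by rw [hA]; simp [hin, hi2])
        omega
      have h1 : QA S l x (32 * KP * S.Lu) := by
        rcases Nat.eq_zero_or_pos l with h2 | h2
        · rw [h2]
          refine (QA.triv S 0 x).mono ?_
          rw [pow_zero]
          nlinarith
        · obtain ⟨l', hl'⟩ := Nat.exists_eq_succ_of_ne_zero h2.ne'
          have h3 := hseg x l' (by
            apply hlab
            rw [← hl2, hl'])
          have h4 := h3.comp (m := 1) (k' := S.Lu) (by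
            have := QA.triv S 1 (S.g^[l'] x)
            rwa [pow_one] at this) (by positivity)
          rw [hl', Nat.succ_eq_add_one, add_comm]
          exact h4
      have h2 : QA S (1 + l) x (32 * KP * S.Lu * S.Lu) := by
        refine h1.comp (m := 1) ?_ (by positivity)
        have := QA.triv S 1 (S.g^[l] x)
        rwa [pow_one] at this
      have h3 : QA S (n - (1 + l)) (S.g^[1 + l] x) (D ^ k) := by
        refine ih _ _ (s.erase (lab x)) ?_ ?_
        · rw [Finset.card_erase_of_mem, hs]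
          · rfl
          · have := hn 0 h0
            simpa using this
        · intro i hi
          rw [← Function.iterate_add_apply, Finset.mem_erase]
          exact ⟨hlast _ (by omega) (by omega), hn _ (by omega)⟩
      have h4 := h2.comp h3 (by positivity)
      have e1 : n - (1 + l) + (1 + l) = n := by omega
      rw [e1] at h4
      refine h4.mono (le_of_eq ?_)
      rw [pow_succ, hD]; ring
  refine ⟨D ^ M, fun n x v hv w hw => ?_⟩
  have := hdec M x n Finset.univ (by simp) (fun i _ => Finset.mem_univ _)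
  exact this v hv w hw

end main

end Pool.Agent.Q130.AN
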