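import Pool.Agent.Q130.AN.Main1
import Pool.Agent.Q130.AN.PA3
import Pool.Agent.Y321.PD.Main
import Pool.Agent.H779R2.An.AC
import Pool.Agent.H779R2.An.MainC

set_option autoImplicit false
set_option linter.unusedSectionVars false

open scoped Manifold ContDiff Topology Bundle
open Set Filter Bundle

namespace Pool.Agent.Q130.AN

open Pool.Agent.H721R2 Pool.Agent.H779R2.An Pool.Agent.H789R2.AN Pool.Agent.Y321.PD

section realize

variable {E₀ : Type*} [NormedAddCommGroup E₀] [NormedSpace ℝ E₀] [FiniteDimensional ℝ E₀]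
  {M : Type*} [MetricSpace M] [CompactSpace M] [ChartedSpace E₀ M] [IsManifold 𝓘(ℝ, E₀) ∞ M]
  {F : Type*} [NormedAddCommGroup F] [NormedSpace ℝ F]

/-- Quasiconformality of the system realizing a power implies quasiconformality. -/
theorem uqc_of_qc {N' : TangentBundle 𝓘(ℝ, E₀) M → ℝ} (hN : IsTangentNorm N')
    {e : M → F} (he : ContMDiff 𝓘(ℝ, E₀) 𝓘(ℝ, F) 1 e)
    (hinj : ∀ x, Function.Injective (dm E₀ e x))
    {f : M ≃ₜ M} {Es Eu : M → Submodule ℝ E₀} {C a b Ls Lu : ℝ}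
    (h : EAnosov e f Es Eu C a b Ls Lu) {K : ℝ}
    {S : HypSys M F} {n : ℕ} (hn : 1 ≤ n) (hS : Realizes S e f Es Eu n) (hK : QC S K) :
    ∃ K' : ℝ, ∀ (m : ℕ) (x : M), ∀ v ∈ Eu x, ∀ w ∈ Eu x,
      tnm N' (f^[m] x) (dg E₀ (f^[m]) x v) * tnm N' x w ≤
        K' * (tnm N' (f^[m] x) (dg E₀ (f^[m]) x w) * tnm N' x v) := by
  obtain ⟨R, hR, hcmp⟩ := tnm_compare hN e he hinj
  have hC1 := h.C_pos
  have hLu1 := h.Lu_le
  have hC0 : 0 < C := by linarith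
  set A : ℝ := C * Lu ^ n * |K| * C with hA
  have hA0 : 0 ≤ A := by positivity
  refine ⟨R * R * A * (R * R), ?_⟩
  intro m x v hv w hw
  obtain ⟨k, j, hj, hm⟩ : ∃ k j : ℕ, j < n ∧ m = j + n * k :=
    ⟨m / n, m % n, Nat.mod_lt _ (by omega), (Nat.mod_add_div m n).symm⟩
  -- decomposition of the iterate
  have hcomp : ∀ u : E₀, dg E₀ (f^[m]) x u =
      dg E₀ (f^[j]) (f^[n * k] x) (dg E₀ (f^[n * k]) x u) := by
    intro u
    have h1 : f^[m] = f^[j] ∘ f^[n * k] := by rw [hm, Function.iterate_add]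
    rw [h1, dg_comp _ _ (iter_smooth f h.smooth (n * k)) (iter_smooth f h.smooth j)]
  have hpt : f^[m] x = f^[j] (f^[n * k] x) := by rw [hm, Function.iterate_add_apply]
  set y := f^[n * k] x with hy
  set V := dg E₀ (f^[n * k]) x v with hV
  set W := dg E₀ (f^[n * k]) x w with hW
  have hVm : V ∈ Eu y := h.mapU (n * k) x v hv
  have hWm : W ∈ Eu y := h.mapU (n * k) x w hw
  have e1 : ‖dm E₀ e (f^[m] x) (dg E₀ (f^[m]) x v)‖ ≤ C * Lu ^ n * ‖dm E₀ e y V‖ := by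
    rw [hcomp, hpt]
    refine (h.hU j y V hVm).trans ?_
    have : Lu ^ j ≤ Lu ^ n := pow_le_pow_right₀ hLu1 hj.le
    gcongr
  have e2 : ‖dm E₀ e y W‖ ≤ C * ‖dm E₀ e (f^[m] x) (dg E₀ (f^[m]) x w)‖ := by
    rw [hcomp, hpt]
    have h1 := h.hU' j (f^[j] y) (dg E₀ (f^[j]) y W) (h.mapU j y W hWm)
    have h2 : f.symm^[j] (f^[j] y) = y := (Function.LeftInverse.iterate f.symm_apply_apply j) y
    have h3 : dg E₀ (f.symm^[j]) (f^[j] y) (dg E₀ (f^[j]) y W) = W :=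
      dg_inv (f^[j]) (f.symm^[j]) (iter_smooth f h.smooth j) (iter_smooth f.symm h.smooth' j)
        (fun z => (Function.LeftInverse.iterate f.symm_apply_apply j) z) y W
    rw [h2, h3] at h1
    refine h1.trans ?_
    have h4 : b ^ j ≤ 1 := pow_le_one₀ h.b_pos.le h.b_lt.le
    have h5 : C * b ^ j ≤ C * 1 := mul_le_mul_of_nonneg_left h4 hC0.le
    rw [mul_one] at h5
    exact mul_le_mul_of_nonneg_right h5 (norm_nonneg _)
  have e3 : ‖dm E₀ e y V‖ * ‖dm E₀ e x w‖ ≤ |K| * (‖dm E₀ e y W‖ * ‖dm E₀ e x v‖) := by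
    have h1 := hK k x (dm E₀ e x v) (by rw [hS.Vu_eq]; exact ⟨v, hv, rfl⟩)
      (dm E₀ e x w) (by rw [hS.Vu_eq]; exact ⟨w, hw, rfl⟩)
    rw [Dn_dm' h hS, Dn_dm' h hS] at h1
    exact h1.trans (mul_le_mul_of_nonneg_right (le_abs_self K) (by positivity))
  have e4 : ‖dm E₀ e (f^[m] x) (dg E₀ (f^[m]) x v)‖ * ‖dm E₀ e x w‖ ≤
      A * (‖dm E₀ e (f^[m] x) (dg E₀ (f^[m]) x w)‖ * ‖dm E₀ e x v‖) := by
    have hLn : 0 ≤ Lu ^ n := by positivity
    calc _ ≤ (C * Lu ^ n * ‖dm E₀ e y V‖) * ‖dm E₀ e x w‖ :=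
          mul_le_mul_of_nonneg_right e1 (norm_nonneg _)
      _ = C * Lu ^ n * (‖dm E₀ e y V‖ * ‖dm E₀ e x w‖) := by ring
      _ ≤ C * Lu ^ n * (|K| * (‖dm E₀ e y W‖ * ‖dm E₀ e x v‖)) :=
          mul_le_mul_of_nonneg_left e3 (by positivity)
      _ ≤ C * Lu ^ n * (|K| * ((C * ‖dm E₀ e (f^[m] x) (dg E₀ (f^[m]) x w)‖) *
          ‖dm E₀ e x v‖)) := by gcongr
      _ = _ := by rw [hA]; ring
  set z := f^[m] x with hz
  set V' := dg E₀ (f^[m]) x v with hV'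
  set W' := dg E₀ (f^[m]) x w with hW'
  have a1 := (hcmp z V').2
  have a2 := (hcmp x w).2
  have a3 := (hcmp z W').1
  have a4 := (hcmp x v).1
  have p1 := tnm_nonneg hN z V'
  have p2 := tnm_nonneg hN x w
  have p3 := tnm_nonneg hN z W'
  have p4 := tnm_nonneg hN x v
  calc tnm N' z V' * tnm N' x w ≤ (R * ‖dm E₀ e z V'‖) * (R * ‖dm E₀ e x w‖) :=
        mul_le_mul a1 a2 p2 (by positivity)
    _ = R * R * (‖dm E₀ e z V'‖ * ‖dm E₀ e x w‖) := by ring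
    _ ≤ R * R * (A * (‖dm E₀ e z W'‖ * ‖dm E₀ e x v‖)) :=
        mul_le_mul_of_nonneg_left e4 (by positivity)
    _ ≤ R * R * (A * ((R * tnm N' z W') * (R * tnm N' x v))) := by gcongr
    _ = R * R * A * (R * R) * (tnm N' z W' * tnm N' x v) := by ring

/-- Passing from the inverse to the map, on the unstable bundle of the map. -/
theorem qc_inverse_u {N' : TangentBundle 𝓘(ℝ, E₀) M → ℝ}
    {e : M → F} {f : M ≃ₜ M} {Es Eu : M → Submodule ℝ E₀} {C a b Ls Lu : ℝ}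
    (h : EAnosov e f Es Eu C a b Ls Lu) {K : ℝ}
    (hqc : ∀ (n : ℕ) (x : M), ∀ v ∈ Eu x, ∀ w ∈ Eu x,
      tnm N' (f^[n] x) (dg E₀ (f^[n]) x v) * tnm N' x w ≤
        K * (tnm N' (f^[n] x) (dg E₀ (f^[n]) x w) * tnm N' x v)) :
    ∀ (n : ℕ) (x : M), ∀ v ∈ Eu x, ∀ w ∈ Eu x,
      tnm N' (f.symm^[n] x) (dg E₀ (f.symm^[n]) x v) * tnm N' x w ≤
        K * (tnm N' (f.symm^[n] x) (dg E₀ (f.symm^[n]) x w) * tnm N' x v) := by
  intro n x v hv w hw
  have h1 := hqc n (f.symm^[n] x) (dg E₀ (f.symm^[n]) x w) (h.mapU' n x w hw)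
    (dg E₀ (f.symm^[n]) x v) (h.mapU' n x v hv)
  rw [dg_inv _ _ (iter_smooth f.symm h.smooth' n) (iter_smooth f h.smooth n) (iter_right f n),
    dg_inv _ _ (iter_smooth f.symm h.smooth' n) (iter_smooth f h.smooth n) (iter_right f n),
    iter_right] at h1
  linarith

end realize

section main

variable (E : Type*) [NormedAddCommGroup E] [NormedSpace ℝ E] [FiniteDimensional ℝ E]
    (M : Type*) [TopologicalSpace M] [T2Space M] [CompactSpace M] [ConnectedSpace M]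
    [ChartedSpace E M] [IsManifold 𝓘(ℝ, E) ∞ M] (f : Diffeomorph 𝓘(ℝ, E) 𝓘(ℝ, E) M M 1)
    (hf2 : ContMDiff 𝓘(ℝ, E) 𝓘(ℝ, E) 2 f) (hf2' : ContMDiff 𝓘(ℝ, E) 𝓘(ℝ, E) 2 f.symm)
    (Es Eu : ∀ x : M, Submodule ℝ (TangentSpace 𝓘(ℝ, E) x)) (hA : IsAnosov f Es Eu)
    (N : TangentBundle 𝓘(ℝ, E) M → ℝ) (hN : IsTangentNorm N)

include hf2 hf2' hA hN

/-- Bounded distortion at the periodic points implies uniform quasiconformality, without any
recurrence assumption. -/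
theorem main_crit : (PerDist f N Eu → UniformlyQC f N Eu) ∧
    (PerDist f N Es → UniformlyQC f N Es) := by
  obtain ⟨m, e, he, hemb, hinj⟩ := exists_embedding_euclidean_of_compact (I := 𝓘(ℝ, E)) (M := M)
  let _ : MetricSpace M := hemb.isEmbedding.comapMetricSpace e
  have hiso : ∀ x y : M, dist x y = ‖e x - e y‖ := fun x y => dist_eq_norm (e x) (e y)
  have he1 : ContMDiff 𝓘(ℝ, E) (𝓡 m) 1 e := he.of_le (by simp)
  have he2 : ContMDiff 𝓘(ℝ, E) (𝓡 m) 2 e := he.of_le (by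
    exact_mod_cast (ENat.LEInfty.out : (2 : WithTop ℕ∞) ≤ ∞))
  obtain ⟨C', a, b, Ls, Lu, hE⟩ := eanosov_of_isAnosov e he1 hinj f Es Eu hA
  obtain ⟨K, hK, hang⟩ := hE.angle he1 hinj
  have t1 : Tendsto (fun n : ℕ => K * (C' * a ^ n)) atTop (𝓝 0) := by
    have := ((tendsto_pow_atTop_nhds_zero_of_lt_one hE.a_pos.le hE.a_lt).const_mul C').const_mul K
    simpa using this
  have t2 : Tendsto (fun n : ℕ => K * (C' * b ^ n)) atTop (𝓝 0) := by
    have := ((tendsto_pow_atTop_nhds_zero_of_lt_one hE.b_pos.le hE.b_lt).const_mul C').const_mul K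
    simpa using this
  obtain ⟨n, ⟨hn1, hn2⟩, hn3⟩ := ((((tendsto_order.mp t1).2 (1 / 16) (by norm_num)).and
    ((tendsto_order.mp t2).2 (1 / 16) (by norm_num))).and (eventually_ge_atTop 1)).exists
  obtain ⟨S, hS⟩ := exists_realizes hiso he1 hinj hE K hK hang n hn1.le hn2.le
  obtain ⟨Q, r, hQ⟩ := quad_of_realizes hiso he2 hinj hE hf2 hf2' hS
  have hgk : ∀ (k : ℕ) (x : M), (S.g^[k]) x = f^[n * k] x := by
    intro k x
    rw [hS.g_eq, Function.iterate_mul]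
    rfl
  constructor
  · rintro ⟨Ku, hKu⟩
    obtain ⟨K', hK'⟩ := qa_of_realizes hN he1 hinj hE Ku hS
    obtain ⟨K1, hK1⟩ := qc_of_per_all S hQ (K₀ := K') (fun k p hk hp =>
      hK' k p fun v hv w hw => hKu (n * k) p (Nat.mul_pos hn3 hk)
        (by rw [← hgk]; exact hp) v hv w hw)
    obtain ⟨K2, hK2⟩ := uqc_of_qc hN he1 hinj hE hn3 hS hK1
    exact ⟨K2, hK2⟩
  · rintro ⟨Ks, hKs⟩
    obtain ⟨K', hK'⟩ := qa_of_realizes hN he1 hinj hE.symm Ks hS.symm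
    obtain ⟨K1, hK1⟩ := qc_of_per_all S.symm hQ.symm (K₀ := K') (fun k p hk hp => by
      have hp' : S.g^[k] p = p := by
        have h1 : S.symm.g^[k] p = p := hp
        have h2 : S.g^[k] (S.symm.g^[k] p) = p := iter_iter_symm S k p
        rwa [h1] at h2
      have hfp : f^[n * k] p = p := by rw [← hgk]; exact hp'
      exact hK' k p (qa_inverse hE hfp fun v hv w hw =>
        hKs (n * k) p (Nat.mul_pos hn3 hk) hfp v hv w hw))
    obtain ⟨K2, hK2⟩ := uqc_of_qc hN he1 hinj hE.symm hn3 hS.symm hK1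
    exact ⟨K2, qc_inverse_u hE.symm hK2⟩

/-- **Transitivity** from a complex structure and bounded periodic distortion on one bundle. -/
theorem main_trans (ds du : ℕ) (hds : ∀ x, Module.finrank ℝ (Es x) = ds)
    (hdu : ∀ x, Module.finrank ℝ (Eu x) = du)
    (hJ : (3 ≤ du ∧ PerDist f N Eu ∧ ∃ J, InvComplexOn f Eu J) ∨
      (3 ≤ ds ∧ PerDist f N Es ∧ ∃ J, InvComplexOn f Es J)) :
    TopTransitive f := by
  obtain ⟨hu, hs⟩ := main_crit E M f hf2 hf2' Es Eu hA N hN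
  refine main_cx E M f hf2 hf2' Es Eu hA N hN ds du hds hdu ?_
  rcases hJ with ⟨h1, h2, h3⟩ | ⟨h1, h2, h3⟩
  · exact Or.inl ⟨h1, hu h2, h3⟩
  · exact Or.inr ⟨h1, hs h2, h3⟩

/-- The almost complex version, without rank restrictions. -/
theorem main_trans_ac (ds du : ℕ) (hds : ∀ x, Module.finrank ℝ (Es x) = ds)
    (hdu : ∀ x, Module.finrank ℝ (Eu x) = du) (hds1 : 1 ≤ ds) (hdu1 : 1 ≤ du)
    (hP : PerDist f N Eu ∨ PerDist f N Es)
    (J : ∀ x : M, TangentSpace 𝓘(ℝ, E) x →ₗ[ℝ] TangentSpace 𝓘(ℝ, E) x)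
    (hJ : PreservesAC f J) : 2 ≤ ds ∧ 2 ≤ du ∧ TopTransitive f := by
  obtain ⟨hs, hu⟩ := hJ.invComplexOn hA
  obtain ⟨x⟩ : Nonempty M := inferInstance
  have : FiniteDimensional ℝ (TangentSpace 𝓘(ℝ, E) x) := inferInstanceAs (FiniteDimensional ℝ E)
  have e1 : 2 ≤ ds := by
    have := two_le_finrank_of_sq (Es x) (J x) (hs.mem x) (hs.sq x) (hds1.trans (hds x).ge)
    exact this.trans (hds x).le
  have e2 : 2 ≤ du := by
    have := two_le_finrank_of_sq (Eu x) (J x) (hu.mem x) (hu.sq x) (hdu1.trans (hdu x).ge)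
    exact this.trans (hdu x).le
  refine ⟨e1, e2, ?_⟩
  by_cases h2 : du = 2
  · exact main_resultC E M f hf2 hf2' Es Eu hA ds du hds hdu (Or.inl ⟨h2, e1, J, hu⟩)
  by_cases h3 : ds = 2
  · exact main_resultC E M f hf2 hf2' Es Eu hA ds du hds hdu (Or.inr ⟨h3, e2, J, hs⟩)
  refine main_trans E M f hf2 hf2' Es Eu hA N hN ds du hds hdu ?_
  rcases hP with h | h
  · exact Or.inl ⟨by omega, h, J, hu⟩
  · exact Or.inr ⟨by omega, h, J, hs⟩

omit hf2 hf2' hA hN [T2Space M] [CompactSpace M] [ConnectedSpace M] [IsManifold 𝓘(ℝ, E) ∞ M] in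
theorem nw_of_trans (htr : TopTransitive f) :
    ∀ U : Set M, IsOpen U → U.Nonempty → ∃ m : ℕ, 1 ≤ m ∧ (f^[m] '' U ∩ U).Nonempty := by
  intro U hU hUn
  have hfU : IsOpen (f '' U) := f.toHomeomorph.isOpenMap U hU
  obtain ⟨n, _, ⟨_, ⟨x, hx, rfl⟩, rfl⟩, hy⟩ := htr (f '' U) U hfU (hUn.image f) hU hUn
  exact ⟨n + 1, by omega, f^[n] (f x), ⟨x, hx, by rw [Function.iterate_succ_apply]⟩, hy⟩

/-- **Classification.** -/
theorem main_class (ds du : ℕ) (h2s : 2 ≤ ds) (h2u : 2 ≤ du)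
    (hds : ∀ x, Module.finrank ℝ (Es x) = ds) (hdu : ∀ x, Module.finrank ℝ (Eu x) = du)
    (hP : PerDist f N Eu ∨ PerDist f N Es) (htr : TopTransitive f) :
    Pool.Agent.H147R2.RI.InfraToral f ∧ ∃ q : E → M, IsCoveringMap q ∧ Function.Surjective q :=
  Pool.Agent.Y321.PD.main_per E M f hf2 hf2' Es Eu hA N hN ds du h2s h2u hds hdu
    (nw_of_trans E M f htr) hP

end main

end Pool.Agent.Q130.AN
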