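import Pool.Agent.Q130.AN.PA1

set_option autoImplicit false

/-!
Bounded distortion on an invariant set from closing on this set (adapted from
`Pool.Agent.Y321.PD.Key2`).
-/

namespace Pool.Agent.Q130.AN

open Pool.Agent.H721R2 Pool.Agent.H779R2.An Pool.Agent.H779R2.An.TauAux Filter Topology Finset
  Pool.Agent.Y321.PD

variable {X E : Type*} [MetricSpace X] [CompactSpace X] [NormedAddCommGroup E]
  [InnerProductSpace ℝ E] [FiniteDimensional ℝ E]

/-- The optimal uniform bound for the distortions of `Dⁿ` at the points of `L`. -/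
noncomputable def kapL (S : HypSys X E) (L : Set X) (n : ℕ) : ℝ :=
  sInf {k : ℝ | 1 ≤ k ∧ ∀ x ∈ L, QA S n x k}

variable (S : HypSys X E) (L : Set X)

theorem kapL_mem (n : ℕ) : S.Lu ^ n ∈ {k : ℝ | 1 ≤ k ∧ ∀ x ∈ L, QA S n x k} :=
  ⟨one_le_pow₀ S.one_le_Lu, fun x _ => QA.triv S n x⟩

theorem kapL_bdd (n : ℕ) : BddBelow {k : ℝ | 1 ≤ k ∧ ∀ x ∈ L, QA S n x k} :=
  ⟨1, fun _ h => h.1⟩

theorem one_le_kapL (n : ℕ) : 1 ≤ kapL S L n :=
  le_csInf ⟨_, kapL_mem S L n⟩ fun _ h => h.1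

theorem kapL_le {n : ℕ} {k : ℝ} (h1 : 1 ≤ k) (h : ∀ x ∈ L, QA S n x k) :
    kapL S L n ≤ k := csInf_le (kapL_bdd S L n) ⟨h1, h⟩

theorem qa_kapL (n : ℕ) (x : X) (hx : x ∈ L) : QA S n x (kapL S L n) := by
  refine QA.of_ne fun v hv w hw hv0 hw0 => ?_
  have h1 := Dn_pos (S := S) n hw hw0
  have h2 := norm_pos_iff.mpr hv0
  rw [← div_le_iff₀ (by positivity)]
  refine le_csInf ⟨_, kapL_mem S L n⟩ fun k hk => ?_
  rw [div_le_iff₀ (by positivity)]
  exact hk.2 x hx v hv w hw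

theorem iter_mem {L : Set X} (hL : ∀ x ∈ L, S.g x ∈ L) {x : X} (hx : x ∈ L) (n : ℕ) :
    S.g^[n] x ∈ L := by
  induction n with
  | zero => exact hx
  | succ n ih => rw [Function.iterate_succ_apply']; exact hL _ ih

theorem kapL_mul (hL : ∀ x ∈ L, S.g x ∈ L) (m n : ℕ) :
    kapL S L (m + n) ≤ kapL S L m * kapL S L n := by
  have h1 := one_le_kapL S L m
  have h2 := one_le_kapL S L n
  refine kapL_le S L (by nlinarith) fun x hx => ?_
  rw [mul_comm (kapL S L m)]
  exact (qa_kapL S L n x hx).comp (qa_kapL S L m _ (iter_mem S hL hx n)) (by linarith)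

/-- Bounded distortion at the periodic points implies bounded distortion on an invariant set, if
orbit segments of this set can be closed in this set. -/
theorem qc_of_closing_on (hL : ∀ x ∈ L, S.g x ∈ L) {Q r : ℝ} (hQ : Quad S Q r) {δ₁ : ℝ}
    (hδ₁ : 0 < δ₁)
    (hclo : ∀ δ, 0 < δ → δ ≤ δ₁ → ∃ N : ℕ, ∀ (x : X) (n : ℕ), x ∈ L → ∃ m ≤ N, ∃ p ∈ L,
      1 ≤ n + m ∧ S.g^[n + m] p = p ∧
      ∀ i ≤ n, dist (S.g^[i] x) (S.g^[i] p) ≤ δ * (1 / 2) ^ i + δ * (1 / 2) ^ (n - i))
    {K₀ : ℝ} (hper : ∀ (n : ℕ) (p : X), 1 ≤ n → S.g^[n] p = p → QA S n p K₀) :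
    ∃ K, ∀ (n : ℕ) (x : X), x ∈ L → QA S n x K := by
  obtain ⟨ρ, hρ, C, hC, hkey⟩ := key2 S hQ
  have hper' : ∀ (n : ℕ) (p : X), 1 ≤ n → S.g^[n] p = p → QA S n p (max K₀ 1) :=
    fun n p hn hp => (hper n p hn hp).mono (le_max_left _ _)
  set K₁ := max K₀ 1 with hK₁
  have hK₁1 : 1 ≤ K₁ := le_max_right _ _
  have h1 := one_le_kapL S L
  have h0 : ∀ n, 0 ≤ kapL S L n := fun n => le_trans zero_le_one (h1 n)
  have hit : ∀ (n : ℕ) {x : X}, x ∈ L → S.g^[n] x ∈ L := fun n x hx => iter_mem S hL hx n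
  obtain ⟨B, hB⟩ := num_bdd (kapL S L) h1 (kapL_mul S L hL) hC (δ₀ := min δ₁ (ρ / 4))
    (lt_min hδ₁ (by positivity)) (by
    intro δ hδ0 hδ
    obtain ⟨N, hN⟩ := hclo δ hδ0 (hδ.trans (min_le_left _ _))
    have hδρ : 2 * δ < ρ := by
      have : δ ≤ ρ / 4 := hδ.trans (min_le_right _ _)
      linarith
    set K₂ := K₁ * S.Lu ^ N with hK₂
    have hLN : 1 ≤ S.Lu ^ N := one_le_pow₀ S.one_le_Lu
    have hK₂1 : 1 ≤ K₂ := by
      have := mul_le_mul hK₁1 hLN zero_le_one (by linarith)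
      linarith
    refine ⟨16 * K₂, fun a m => ?_⟩
    have hs0 : 0 ≤ ∑ i ∈ range m, (((1:ℝ) / 2) ^ i + (1 / 2) ^ (m - i)) *
        (kapL S L i * kapL S L (m - 1 - i)) :=
      Finset.sum_nonneg fun i _ => mul_nonneg (by positivity) (mul_nonneg (h0 _) (h0 _))
    have ha1 := h1 a
    have ha4 : 1 ≤ kapL S L a ^ 4 := one_le_pow₀ ha1
    refine kapL_le S L ?_ fun x hx => ?_
    · have t1 : 0 ≤ C * δ * kapL S L a ^ 2 * (1 / 2) ^ a *
          ∑ i ∈ range m, (((1:ℝ) / 2) ^ i + (1 / 2) ^ (m - i)) *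
            (kapL S L i * kapL S L (m - 1 - i)) := by
        have := h0 a
        positivity
      nlinarith
    · obtain ⟨l, hl, p, hpL, hn1, hp, hdist⟩ := hN x (m + 2 * a) hx
      have hpn : QA S (m + 2 * a) p K₂ := by
        have t1 := hper' _ p hn1 hp
        have t2 : QA S (l + ((m + 2 * a) + 0)) p K₁ := by
          have e : l + ((m + 2 * a) + 0) = m + 2 * a + l := by omega
          rw [e]; exact t1
        have t3 := QA.mid (S := S) (a := 0) (m := m + 2 * a) (b := l) (x := p) (ka := 1)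
          (kb := S.Lu ^ l) t2 (by simpa using QA.triv S 0 p) (QA.triv S l _)
        simp only [Function.iterate_zero, id_eq] at t3
        refine t3.mono ?_
        rw [one_mul, hK₂]
        refine mul_le_mul_of_nonneg_left ?_ (by linarith)
        exact pow_le_pow_right₀ S.one_le_Lu hl
      have hpm : QA S m (S.g^[a] p) (kapL S L a * K₂ * kapL S L a) := by
        have t2 : QA S (a + (m + a)) p K₂ := by
          have e : a + (m + a) = m + 2 * a := by omega
          rw [e]; exact hpn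
        exact QA.mid t2 (qa_kapL S L a p hpL) (qa_kapL S L a _ (hit _ hpL))
      have hda : ∀ i ≤ m, dist (S.g^[i] (S.g^[a] x)) (S.g^[i] (S.g^[a] p)) ≤
          δ * (1 / 2) ^ a * ((1 / 2) ^ i + (1 / 2) ^ (m - i)) := by
        intro i hi
        have t1 := hdist (i + a) (by omega)
        rw [Function.iterate_add_apply, Function.iterate_add_apply] at t1
        refine t1.trans (le_of_eq ?_)
        have e : m + 2 * a - (i + a) = (m - i) + a := by omega
        rw [e, pow_add, pow_add]; ring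
      have hmid := hkey m (S.g^[a] x) (S.g^[a] p) (kapL S L) (kapL S L)
        (kapL S L a * K₂ * kapL S L a) (by
        intro i hi
        refine lt_of_le_of_lt (hda i hi) ?_
        have u1 : ((1:ℝ) / 2) ^ a ≤ 1 := pow_le_one₀ (by norm_num) (by norm_num)
        have u2 : ((1:ℝ) / 2) ^ i ≤ 1 := pow_le_one₀ (by norm_num) (by norm_num)
        have u3 : ((1:ℝ) / 2) ^ (m - i) ≤ 1 := pow_le_one₀ (by norm_num) (by norm_num)
        calc δ * (1 / 2) ^ a * ((1 / 2) ^ i + (1 / 2) ^ (m - i)) ≤ δ * 1 * (1 + 1) := by gcongr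
          _ < ρ := by linarith) h0 (fun i _ => qa_kapL S L i _ (hit _ hx)) h0
        (fun i j _ => qa_kapL S L j _ (hit _ (hit _ hpL)))
        (by have := h0 a; positivity) hpm
      have hxm : QA S m (S.g^[a] x) (16 * (kapL S L a * K₂ * kapL S L a) + C * ∑ i ∈ range m,
          (δ * (1 / 2) ^ a * ((1 / 2) ^ i + (1 / 2) ^ (m - i))) *
            (kapL S L i * kapL S L (m - 1 - i))) := by
        refine hmid.mono ?_
        gcongr with i hi
        · exact mul_nonneg (h0 _) (h0 _)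
        · exact hda i (Finset.mem_range.mp hi).le
      have hx1 := (qa_kapL S L a x hx).comp hxm (h0 a)
      have hx2 := hx1.comp (m := a) (qa_kapL S L a _ (hit _ hx)) (by
        refine mul_nonneg (h0 a) (add_nonneg ?_ (mul_nonneg hC ?_))
        · have := h0 a; positivity
        · exact Finset.sum_nonneg fun i _ => mul_nonneg (by positivity)
            (mul_nonneg (h0 _) (h0 _)))
      have e1 : a + (m + a) = m + 2 * a := by omega
      rw [e1] at hx2
      refine hx2.mono (le_of_eq ?_)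
      have e2 : ∑ i ∈ range m, (δ * (1 / 2) ^ a * ((1 / 2) ^ i + (1 / 2) ^ (m - i))) *
          (kapL S L i * kapL S L (m - 1 - i)) = δ * (1 / 2) ^ a * ∑ i ∈ range m,
            ((1 / 2) ^ i + (1 / 2) ^ (m - i)) * (kapL S L i * kapL S L (m - 1 - i)) := by
        rw [Finset.mul_sum]
        exact Finset.sum_congr rfl fun i _ => by ring
      rw [e2]
      ring)
  exact ⟨B, fun n x hx => (qa_kapL S L n x hx).mono (hB n)⟩

end Pool.Agent.Q130.AN
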