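import Pool.Agent.H779R2.An.CD
import Pool.Agent.H779R2.An.QE
import Pool.Agent.Q130.AN.Cx5

set_option autoImplicit false

namespace Pool.Agent.Q130.AN

open Pool.Agent.H721R2 Pool.Agent.H779R2.An Filter Topology

variable {X E : Type*} [MetricSpace X] [CompactSpace X] [NormedAddCommGroup E]
  [InnerProductSpace ℝ E] [FiniteDimensional ℝ E]

/-- Real cancellation lemma. -/
theorem qc_real {a b a' b' an bn an' bn' K : ℝ} (ha : 0 ≤ a) (hb' : 0 ≤ b')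
    (hb : 0 ≤ b) (hbn' : 0 ≤ bn') (hK : 0 ≤ K)
    (h1 : an * b ≤ K * (bn * a)) (h2 : bn' * a' ≤ K * (an' * b')) (h3 : an' ≤ 2 * an)
    (h4 : bn ≤ 2 * bn') (h5 : bn' = 0 → b = 0) : a' * b ≤ 4 * K ^ 2 * (b' * a) := by
  rcases hbn'.eq_or_lt with h | h
  · rw [h5 h.symm, mul_zero]
    positivity
  · have e1 : bn' * a' * b ≤ K * (an' * b') * b := mul_le_mul_of_nonneg_right h2 hb
    have e2 : K * (an' * b') * b ≤ K * (2 * an * b') * b := by gcongr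
    have e3 : K * (2 * an * b') * b = 2 * K * b' * (an * b) := by ring
    have e4 : 2 * K * b' * (an * b) ≤ 2 * K * b' * (K * (bn * a)) :=
      mul_le_mul_of_nonneg_left h1 (by positivity)
    have e5 : 2 * K * b' * (K * (bn * a)) ≤ 2 * K * b' * (K * (2 * bn' * a)) := by gcongr
    have e6 : bn' * (a' * b) ≤ bn' * (4 * K ^ 2 * (b' * a)) := by
      calc bn' * (a' * b) = bn' * a' * b := by ring
        _ ≤ _ := e1
        _ ≤ _ := e2
        _ = _ := e3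
        _ ≤ _ := e4
        _ ≤ _ := e5
        _ = _ := by ring
    exact le_of_mul_le_mul_left e6 h

theorem qc_abs {S : HypSys X E} {K : ℝ} (h : QC S K) : QC S |K| := fun n x v hv w hw =>
  (h n x v hv w hw).trans (mul_le_mul_of_nonneg_right (le_abs_self K) (by positivity))

theorem tau_inj {S : HypSys X E} (F : Flat S) {x y : X} (h : UAsym S x y) {v : E}
    (hv : v ∈ S.Vu x) (h0 : F.τ x y v = 0) : v = 0 := by
  have h1 := F.τ_comp x y x h h.symm v hv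
  rw [h0, map_zero, F.τ_self x v hv] at h1
  exact h1.symm

theorem hol_inj {S : HypSys X E} (F : Flat S) {x y : X} (h : SAsym S x y) {v : E}
    (hv : v ∈ S.Vu x) (h0 : F.H x y v = 0) : v = 0 := by
  have h1 := F.H_comp x y x h h.symm v hv
  rw [h0, map_zero, F.H_self x v hv] at h1
  exact h1.symm

/-- The transports along unstable leaves are quasiconformal. -/
theorem tau_qc {S : HypSys X E} (F : Flat S) {x y : X} (h : UAsym S x y) {u w : E}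
    (hu : u ∈ S.Vu x) (hw : w ∈ S.Vu x) :
    ‖F.τ x y u‖ * ‖w‖ ≤ 4 * |F.K| ^ 2 * (‖F.τ x y w‖ * ‖u‖) := by
  obtain ⟨n, hn⟩ := h.eventually F.geo.pos
  have hR := hn n le_rfl
  have hq := qc_abs F.qc
  have hun := Dn_symm_mem S n x hu
  have hwn := Dn_symm_mem S n x hw
  have hu' := F.τ_mem _ _ h _ hu
  have hw' := F.τ_mem _ _ h _ hw
  have e1 := F.toLin0.τ_back h n hu
  have e2 := F.toLin0.τ_back h n hw
  refine qc_real (an := ‖Dn S.symm n x u‖) (bn := ‖Dn S.symm n x w‖)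
    (an' := ‖Dn S.symm n y (F.τ x y u)‖) (bn' := ‖Dn S.symm n y (F.τ x y w)‖)
    (norm_nonneg _) (norm_nonneg _) (norm_nonneg _) (norm_nonneg _) (abs_nonneg _)
    (hq.back n x hu hw) (hq.back n y hw' hu') ?_ ?_ ?_
  · rw [← e1]; exact F.τ_le _ _ hR _ hun
  · rw [← e2]; exact F.le_τ _ _ hR _ hwn
  · intro h0
    have h1 : F.τ x y w = 0 := Dn_symm_eq_zero S n y hw' (norm_eq_zero.mp h0)
    rw [tau_inj F h hw h1, norm_zero]

/-- The linear holonomies are quasiconformal. -/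
theorem hol_qc {S : HypSys X E} (F : Flat S) {x y : X} (h : SAsym S x y) {u w : E}
    (hu : u ∈ S.Vu x) (hw : w ∈ S.Vu x) :
    ‖F.H x y u‖ * ‖w‖ ≤ 4 * |F.K| ^ 2 * (‖F.H x y w‖ * ‖u‖) := by
  obtain ⟨n, hn⟩ := h.eventually F.geo.pos
  have hR := hn n le_rfl
  have hq := qc_abs F.qc
  have hun := Dn_mem S n x hu
  have hwn := Dn_mem S n x hw
  have hu' := F.H_mem _ _ h _ hu
  have hw' := F.H_mem _ _ h _ hw
  have e1 := F.toLin0.H_iter h n hu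
  have e2 := F.toLin0.H_iter h n hw
  refine qc_real (an := ‖Dn S n x u‖) (bn := ‖Dn S n x w‖)
    (an' := ‖Dn S n y (F.H x y u)‖) (bn' := ‖Dn S n y (F.H x y w)‖)
    (norm_nonneg _) (norm_nonneg _) (norm_nonneg _) (norm_nonneg _) (abs_nonneg _)
    (hq n x _ hu _ hw) (hq n y _ hw' _ hu') ?_ ?_ ?_
  · rw [← e1]; exact F.H_le _ _ hR _ hun
  · rw [← e2]; exact F.le_H _ _ hR _ hwn
  · intro h0
    have h1 : F.H x y w = 0 := Dn_eq_zero S n y hw' (norm_eq_zero.mp h0)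
    rw [hol_inj F h hw h1, norm_zero]

/-- Composition of quasiconformal linear maps. -/
theorem qc_comp {V V' : Submodule ℝ E} {A B : E →ₗ[ℝ] E} {a b : ℝ} (ha : 0 ≤ a) (hb : 0 ≤ b)
    (hA : ∀ v ∈ V, A v ∈ V') (hinj : ∀ v ∈ V, A v = 0 → v = 0)
    (h1 : ∀ u ∈ V, ∀ w ∈ V, ‖A u‖ * ‖w‖ ≤ a * (‖A w‖ * ‖u‖))
    (h2 : ∀ u ∈ V', ∀ w ∈ V', ‖B u‖ * ‖w‖ ≤ b * (‖B w‖ * ‖u‖)) :
    ∀ u ∈ V, ∀ w ∈ V, ‖B (A u)‖ * ‖w‖ ≤ (a * b) * (‖B (A w)‖ * ‖u‖) := by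
  intro u hu w hw
  rcases (norm_nonneg (A w)).eq_or_lt with h | h
  · have : w = 0 := hinj w hw (norm_eq_zero.mp h.symm)
    rw [this, norm_zero, mul_zero]
    positivity
  · have e1 := h1 u hu w hw
    have e2 := h2 _ (hA u hu) _ (hA w hw)
    have e3 : ‖A w‖ * (‖B (A u)‖ * ‖w‖) ≤ ‖A w‖ * ((a * b) * (‖B (A w)‖ * ‖u‖)) := by
      calc ‖A w‖ * (‖B (A u)‖ * ‖w‖) = (‖B (A u)‖ * ‖A w‖) * ‖w‖ := by ring
        _ ≤ (b * (‖B (A w)‖ * ‖A u‖)) * ‖w‖ := mul_le_mul_of_nonneg_right e2 (norm_nonneg _)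
        _ = b * ‖B (A w)‖ * (‖A u‖ * ‖w‖) := by ring
        _ ≤ b * ‖B (A w)‖ * (a * (‖A w‖ * ‖u‖)) := mul_le_mul_of_nonneg_left e1 (by positivity)
        _ = _ := by ring
    exact le_of_mul_le_mul_left e3 h

/-- The linearizing coordinate of a full unstable leaf is onto. -/
theorem exists_q {S : HypSys X E} (F : Flat S) (x : X) :
    ∃ q : E → X, (∀ v ∈ S.Vu x, UAsym S x (q v) ∧ F.Lc x (q v) = v) ∧ q 0 = x := by
  obtain ⟨ρ, hρ, hs⟩ := F.surj _ F.geo.pos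
  have key : ∀ v : E, ∃ y, v ∈ S.Vu x → UAsym S x y ∧ F.Lc x y = v := by
    intro v
    by_cases hv : v ∈ S.Vu x
    · have hlim : Tendsto (fun n : ℕ => (1 / 16 : ℝ) ^ n * ‖v‖) atTop (𝓝 0) := by
        have := (tendsto_pow_atTop_nhds_zero_of_lt_one (by norm_num : (0 : ℝ) ≤ 1 / 16)
          (by norm_num)).mul_const ‖v‖
        simpa using this
      obtain ⟨n, hn⟩ := (hlim.eventually (gt_mem_nhds hρ)).exists
      obtain ⟨y, h1, h2⟩ := hs (S.g.symm^[n] x) _ (Dn_symm_mem S n x hv)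
        ((Dn_symm_le S n x hv).trans hn.le)
      have hU := F.geo.uasym _ _ h1
      refine ⟨S.g^[n] y, fun _ => ⟨?_, ?_⟩⟩
      · have := hU.iter n
        rwa [iter_iter_symm] at this
      · have := F.toLin0.Lc_iter hU n
        rw [iter_iter_symm, h2, Dn_Dn_symm S n x hv] at this
        exact this
    · exact ⟨x, fun h => absurd h hv⟩
  choose q hq using key
  refine ⟨q, hq, ?_⟩
  have h0 := hq 0 (S.Vu x).zero_mem
  exact F.inj x _ _ h0.1 (UAsym.refl S x) (by rw [h0.2, F.Lc_self])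

/-- Partial extensions of the stable holonomy from the full unstable leaf of `x` (with linearizing
parametrization `q`) to the full unstable leaf of `y`. -/
structure Tr {S : HypSys X E} (F : Flat S) (q : E → X) (D : Set E) (y : X) (p : E → X) : Prop where
  u : ∀ v ∈ D, UAsym S y (p v)
  s : ∀ v ∈ D, SAsym S (q v) (p v)
  base : p 0 = y
  diff : ∀ v₀ ∈ D, ∀ η > 0, ∃ ρ > 0, ∀ v ∈ D, ‖v - v₀‖ ≤ ρ →
    ‖F.Lc (p v₀) (p v) - F.H (q v₀) (p v₀) (F.Lc (q v₀) (q v))‖ ≤ η * ‖v - v₀‖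

/-- The linear approximation. -/
noncomputable def TL {S : HypSys X E} (F : Flat S) (q : E → X) (x y : X) (p : E → X) (v : E) :
    E →ₗ[ℝ] E :=
  (F.τ (p v) y).comp ((F.H (q v) (p v)).comp (F.τ x (q v)))

theorem TL_apply {S : HypSys X E} (F : Flat S) (q : E → X) (x y : X) (p : E → X) (v w : E) :
    TL F q x y p v w = F.τ (p v) y (F.H (q v) (p v) (F.τ x (q v) w)) := rfl

theorem lin_bound (A : E →ₗ[ℝ] E) : ∃ C > 0, ∀ v, ‖A v‖ ≤ C * ‖v‖ := by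
  refine ⟨‖LinearMap.toContinuousLinearMap A‖ + 1, by positivity, fun v => ?_⟩
  have := (LinearMap.toContinuousLinearMap A).le_opNorm v
  have h2 := norm_nonneg v
  have h3 : LinearMap.toContinuousLinearMap A v = A v := rfl
  rw [h3] at this
  nlinarith

section

variable {S : HypSys X E} {F : Flat S} {q : E → X} {D : Set E} {x y : X} {p : E → X}

/-- The initial transport. -/
theorem Tr.init (hq : ∀ v ∈ D, UAsym S x (q v)) (hq0 : q 0 = x) : Tr F q D x q where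
  u := hq
  s := fun v _ => SAsym.refl S _
  base := hq0
  diff := by
    intro v₀ hv₀ η hη
    refine ⟨1, one_pos, fun v hv _ => ?_⟩
    rw [F.H_self _ _ (F.Lc_mem _ _ ((hq v₀ hv₀).symm.trans (hq v hv))), sub_self, norm_zero]
    positivity

theorem TL_mem (h : Tr F q D y p) (hq : ∀ v ∈ D, UAsym S x (q v)) {v w : E} (hv : v ∈ D)
    (hw : w ∈ S.Vu x) : TL F q x y p v w ∈ S.Vu y :=
  F.τ_mem _ _ (h.u v hv).symm _ (F.H_mem _ _ (h.s v hv) _ (F.τ_mem _ _ (hq v hv) _ hw))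

theorem TL_J (J : CJ F) (h : Tr F q D y p) (hq : ∀ v ∈ D, UAsym S x (q v)) {v w : E} (hv : v ∈ D)
    (hw : w ∈ S.Vu x) : TL F q x y p v (J.J x w) = J.J y (TL F q x y p v w) := by
  rw [TL_apply, TL_apply, J.J_τ _ _ (hq v hv) _ hw, J.J_H _ _ (h.s v hv) _
    (F.τ_mem _ _ (hq v hv) _ hw), J.J_τ _ _ (h.u v hv).symm _
    (F.H_mem _ _ (h.s v hv) _ (F.τ_mem _ _ (hq v hv) _ hw))]

theorem TL_inj (h : Tr F q D y p) (hq : ∀ v ∈ D, UAsym S x (q v)) {v w : E} (hv : v ∈ D)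
    (hw : w ∈ S.Vu x) (h0 : TL F q x y p v w = 0) : w = 0 := by
  rw [TL_apply] at h0
  have a1 := F.τ_mem _ _ (hq v hv) _ hw
  have a2 := F.H_mem _ _ (h.s v hv) _ a1
  exact tau_inj F (hq v hv) hw (hol_inj F (h.s v hv) a1 (tau_inj F (h.u v hv).symm a2 h0))

theorem TL_zero (h : Tr F q D y p) (hq : ∀ v ∈ D, UAsym S x (q v)) (hq0 : q 0 = x) (h0D : (0 : E) ∈ D) {w : E}
    (hw : w ∈ S.Vu x) : TL F q x y p 0 w = F.H x y w := by
  have h1 := h.s 0 h0D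
  rw [hq0, h.base] at h1
  rw [TL_apply, hq0, h.base, F.τ_self x w hw, F.τ_self y _ (F.H_mem _ _ h1 _ hw)]

theorem TL_qc (h : Tr F q D y p) (hq : ∀ v ∈ D, UAsym S x (q v)) {v : E} (hv : v ∈ D) :
    ∀ u ∈ S.Vu x, ∀ w ∈ S.Vu x, ‖TL F q x y p v u‖ * ‖w‖ ≤
      ((4 * |F.K| ^ 2) * (4 * |F.K| ^ 2) * (4 * |F.K| ^ 2)) * (‖TL F q x y p v w‖ * ‖u‖) := by
  have hc : 0 ≤ 4 * |F.K| ^ 2 := by positivity
  have a1 := qc_comp (V := S.Vu x) (V' := S.Vu (q v)) (A := F.τ x (q v)) (B := F.H (q v) (p v))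
    hc hc (fun w hw => F.τ_mem _ _ (hq v hv) _ hw) (fun w hw => tau_inj F (hq v hv) hw)
    (fun u hu w hw => tau_qc F (hq v hv) hu hw) (fun u hu w hw => hol_qc F (h.s v hv) hu hw)
  exact qc_comp (V := S.Vu x) (V' := S.Vu (p v)) (A := (F.H (q v) (p v)).comp (F.τ x (q v)))
    (B := F.τ (p v) y) (by positivity) hc
    (fun w hw => F.H_mem _ _ (h.s v hv) _ (F.τ_mem _ _ (hq v hv) _ hw))
    (fun w hw h0 => tau_inj F (hq v hv) hw (hol_inj F (h.s v hv) (F.τ_mem _ _ (hq v hv) _ hw) h0))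
    a1 (fun u hu w hw => tau_qc F (h.u v hv).symm hu hw)

/-- Differentiability of the transport in linearizing coordinates. -/
theorem Tr.diff' (h : Tr F q D y p) (hq : ∀ v ∈ D, UAsym S x (q v) ∧ F.Lc x (q v) = v) :
    ∀ v₀ ∈ D, ∀ η > 0, ∃ ρ > 0, ∀ v ∈ D, ‖v - v₀‖ ≤ ρ →
      ‖F.Lc y (p v) - F.Lc y (p v₀) - TL F q x y p v₀ (v - v₀)‖ ≤ η * ‖v - v₀‖ := by
  intro v₀ hv₀ η hη
  obtain ⟨C, hC, hCb⟩ := lin_bound (F.τ (p v₀) y)
  obtain ⟨ρ, hρ, hd⟩ := h.diff v₀ hv₀ (η / C) (by positivity)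
  refine ⟨ρ, hρ, fun v hv hvv => ?_⟩
  have b1 : F.Lc (q v₀) (q v) = F.τ x (q v₀) (v - v₀) := by
    rw [F.base x (q v₀) (q v) (hq v₀ hv₀).1 (hq v hv).1, (hq v hv).2, (hq v₀ hv₀).2]
  have b2 : F.Lc (p v₀) (p v) = F.τ y (p v₀) (F.Lc y (p v) - F.Lc y (p v₀)) :=
    F.base y (p v₀) (p v) (h.u v₀ hv₀) (h.u v hv)
  have hwV : F.Lc y (p v) - F.Lc y (p v₀) ∈ S.Vu y :=
    (S.Vu y).sub_mem (F.Lc_mem _ _ (h.u v hv)) (F.Lc_mem _ _ (h.u v₀ hv₀))
  have b3 : F.τ (p v₀) y (F.τ y (p v₀) (F.Lc y (p v) - F.Lc y (p v₀))) =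
      F.Lc y (p v) - F.Lc y (p v₀) := by
    rw [F.τ_comp y (p v₀) y (h.u v₀ hv₀) (h.u v₀ hv₀).symm _ hwV, F.τ_self y _ hwV]
  have b4 : F.Lc y (p v) - F.Lc y (p v₀) - TL F q x y p v₀ (v - v₀) =
      F.τ (p v₀) y (F.Lc (p v₀) (p v) - F.H (q v₀) (p v₀) (F.Lc (q v₀) (q v))) := by
    rw [map_sub (F.τ (p v₀) y), b2, b3, b1, TL_apply]
  rw [b4]
  calc _ ≤ C * ‖F.Lc (p v₀) (p v) - F.H (q v₀) (p v₀) (F.Lc (q v₀) (q v))‖ := hCb _
    _ ≤ C * (η / C * ‖v - v₀‖) := mul_le_mul_of_nonneg_left (hd v hv hvv) hC.le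
    _ = η * ‖v - v₀‖ := by field_simp

end

end Pool.Agent.Q130.AN
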