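import Pool.Agent.Q130.AN.Tr1

set_option autoImplicit false

namespace Pool.Agent.Q130.AN

open Pool.Agent.H721R2 Pool.Agent.H779R2.An Filter Topology

variable {X E : Type*} [MetricSpace X] [CompactSpace X] [NormedAddCommGroup E]
  [InnerProductSpace ℝ E] [FiniteDimensional ℝ E]

section

variable {S : HypSys X E} {F : Flat S} {q : E → X} {x : X}

/-- The a priori bound, valid for every leaf reached by the transport. -/
def Bd (F : Flat S) (q : E → X) (x : X) (N : E → ℝ) (C₁ : ℝ) : Prop :=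
  ∀ R > 0, ∀ (y : X) (p : E → X), S.SRel F.ε₀ x y → Tr F q {v | v ∈ S.Vu x ∧ N v < R} y p →
    ∀ v ∈ S.Vu x, N v < R → ‖F.Lc y (p v)‖ ≤ C₁ * R

theorem exists_bd (F : Flat S) (J : CJ F) (hdim : 3 ≤ Module.finrank ℝ (S.Vu x))
    (hq : ∀ v ∈ S.Vu x, UAsym S x (q v) ∧ F.Lc x (q v) = v) (hq0 : q 0 = x) :
    ∃ (N : E → ℝ) (c C₁ : ℝ), 0 < c ∧ 0 < C₁ ∧ N 0 = 0 ∧ (∀ v, N v ≤ c * ‖v‖) ∧
      Bd F q x N C₁ := by
  set K₀ : ℝ := (4 * |F.K| ^ 2) * (4 * |F.K| ^ 2) * (4 * |F.K| ^ 2) with hK₀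
  obtain ⟨N, c, C₁, hc, hC₁, hN0, hNc, hmain⟩ := exists_cx (S.Vu x) (J.J x) (J.J_mem x)
    (J.J_sq x) hdim (K₀ * (4 * |F.K| ^ 2))
  refine ⟨N, c, 2 * C₁, hc, by positivity, hN0, hNc, ?_⟩
  intro R hR y p hxy hT
  set D : Set E := {v | v ∈ S.Vu x ∧ N v < R} with hD
  have h0D : (0 : E) ∈ D := ⟨(S.Vu x).zero_mem, by rw [hN0]; exact hR⟩
  have hqD : ∀ v ∈ D, UAsym S x (q v) := fun v hv => (hq v hv.1).1
  have hqD' : ∀ v ∈ D, UAsym S x (q v) ∧ F.Lc x (q v) = v := fun v hv => hq v hv.1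
  have hs : SAsym S y x := (F.geo.sasym _ _ hxy).symm
  have hb := hmain R hR (fun v => F.H y x (F.Lc y (p v)))
    (fun v => (F.H y x).comp (TL F q x y p v))
    (by rw [hT.base, F.Lc_self, map_zero])
    (fun v hv hvR => F.H_mem _ _ hs _ (F.Lc_mem _ _ (hT.u v ⟨hv, hvR⟩)))
    (by
      intro v₀ hv₀ hv₀R
      have hvD : v₀ ∈ D := ⟨hv₀, hv₀R⟩
      refine ⟨?_, ?_, ?_, ?_, ?_⟩
      · intro w hw
        exact F.H_mem _ _ hs _ (TL_mem hT hqD hvD hw)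
      · intro w hw
        rw [LinearMap.comp_apply, LinearMap.comp_apply, TL_J J hT hqD hvD hw,
          J.J_H _ _ hs _ (TL_mem hT hqD hvD hw)]
      · intro w hw h0
        rw [LinearMap.comp_apply] at h0
        exact TL_inj hT hqD hvD hw (hol_inj F hs (TL_mem hT hqD hvD hw) h0)
      · exact qc_comp (V := S.Vu x) (V' := S.Vu y) (A := TL F q x y p v₀) (B := F.H y x)
          (by positivity) (by positivity) (fun w hw => TL_mem hT hqD hvD hw)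
          (fun w hw h0 => TL_inj hT hqD hvD hw h0) (TL_qc hT hqD hvD)
          (fun u hu w hw => hol_qc F hs hu hw)
      · intro η hη
        obtain ⟨C, hC, hCb⟩ := lin_bound (F.H y x)
        obtain ⟨ρ, hρ, hd⟩ := hT.diff' hqD' v₀ hvD (η / C) (by positivity)
        refine ⟨ρ, hρ, fun v hv hvR hvv => ?_⟩
        have h1 := hd v ⟨hv, hvR⟩ hvv
        have h2 : F.H y x (F.Lc y (p v)) - F.H y x (F.Lc y (p v₀)) -
            (F.H y x).comp (TL F q x y p v₀) (v - v₀) =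
            F.H y x (F.Lc y (p v) - F.Lc y (p v₀) - TL F q x y p v₀ (v - v₀)) := by
          rw [map_sub (F.H y x), map_sub (F.H y x), LinearMap.comp_apply]
        rw [h2]
        calc _ ≤ C * ‖F.Lc y (p v) - F.Lc y (p v₀) - TL F q x y p v₀ (v - v₀)‖ := hCb _
          _ ≤ C * (η / C * ‖v - v₀‖) := mul_le_mul_of_nonneg_left h1 hC.le
          _ = η * ‖v - v₀‖ := by field_simp)
    (by
      intro w hw
      rw [LinearMap.comp_apply, TL_zero hT hqD hq0 h0D hw, F.H_comp x y x hs.symm hs w hw,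
        F.H_self x w hw])
  intro v hv hvR
  have h1 := hb v hv hvR
  have h2 := F.le_H y x hxy.symm _ (F.Lc_mem _ _ (hT.u v ⟨hv, hvR⟩))
  linarith

/-- One step of the transport. -/
theorem Tr.step {D : Set E} {y y' : X} {p : E → X} {εc e1 e2 : ℝ} {n : ℕ} (h0D : (0 : E) ∈ D)
    (hDV : D ⊆ S.Vu x) (hq : ∀ v ∈ D, UAsym S x (q v) ∧ F.Lc x (q v) = v)
    (hεc : ∀ w w', S.SRel εc w w' → ∀ η > 0, ∃ ρ > 0, ∀ q q', S.URel εc w q →
      ‖F.Lc w q‖ ≤ ρ → S.SRel εc q q' → S.URel εc w' q' →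
      ‖F.Lc w' q' - F.H w w' (F.Lc w q)‖ ≤ η * ‖F.Lc w q‖)
    (he12 : e1 ≤ e2) (he2 : 2 * e2 ≤ εc) (he2' : 2 * e2 ≤ F.ε₀) (he20 : 0 < e2)
    (hcor : ∀ x y z : X, S.SRel e1 x y → S.URel e1 x z → ∃ w, S.URel e2 y w ∧ S.SRel e2 z w)
    (hT : Tr F q D y p) (hyy : S.SRel e1 (S.g.symm^[n] y) (S.g.symm^[n] y'))
    (hsm : ∀ v ∈ D, S.URel e1 (S.g.symm^[n] y) (S.g.symm^[n] (p v))) :
    ∃ p' : E → X, Tr F q D y' p' ∧
      ∀ v ∈ D, S.SRel e2 (S.g.symm^[n] (p v)) (S.g.symm^[n] (p' v)) := by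
  have key : ∀ v : E, ∃ w, v ∈ D → S.URel e2 (S.g.symm^[n] y') w ∧
      S.SRel e2 (S.g.symm^[n] (p v)) w := by
    intro v
    by_cases hv : v ∈ D
    · obtain ⟨w, h1, h2⟩ := hcor _ _ _ hyy (hsm v hv)
      exact ⟨w, fun _ => ⟨h1, h2⟩⟩
    · exact ⟨x, fun h => absurd h hv⟩
  choose W hW using key
  have hback : ∀ v, S.g.symm^[n] (S.g^[n] (W v)) = W v := fun v => iter_symm_iter S n _
  have hUW : ∀ v ∈ D, UAsym S (S.g.symm^[n] y') (W v) := fun v hv =>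
    F.geo.uasym _ _ ((hW v hv).1.mono (by linarith))
  have hSW : ∀ v ∈ D, SAsym S (S.g.symm^[n] (p v)) (W v) := fun v hv =>
    F.geo.sasym _ _ ((hW v hv).2.mono (by linarith))
  have hU' : ∀ v ∈ D, UAsym S y' (S.g^[n] (W v)) := by
    intro v hv
    have := (hUW v hv).iter n
    rwa [iter_iter_symm] at this
  have hS' : ∀ v ∈ D, SAsym S (p v) (S.g^[n] (W v)) := by
    intro v hv
    have := (hSW v hv).iter n
    rwa [iter_iter_symm] at this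
  have hqp : ∀ v ∈ D, SAsym S (q v) (p v) := hT.s
  have hpp : ∀ v₀ ∈ D, ∀ v ∈ D, UAsym S (p v₀) (p v) := fun v₀ hv₀ v hv =>
    (hT.u v₀ hv₀).symm.trans (hT.u v hv)
  refine ⟨fun v => S.g^[n] (W v), ⟨hU', fun v hv => (hqp v hv).trans (hS' v hv), ?_, ?_⟩, ?_⟩
  · have h1 := (hW 0 h0D).2
    rw [hT.base] at h1
    have h2 : S.g.symm^[n] y' = W 0 := F.geo.uniq _ _
      ((hyy.symm.trans h1).mono (by linarith)) ((hW 0 h0D).1.mono (by linarith))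
    rw [← h2, iter_iter_symm]
  · intro v₀ hv₀ η hη
    obtain ⟨A, hA, hAb⟩ := lin_bound ((F.H (q v₀) (p v₀)).comp (F.τ x (q v₀)))
    obtain ⟨B, hB, hBb⟩ := lin_bound (F.H (p v₀) (S.g^[n] (W v₀)))
    have hLu : 0 < S.Lu ^ n := by
      have := S.one_le_Lu
      positivity
    obtain ⟨ρ1, hρ1, hd1⟩ := hT.diff v₀ hv₀ (min 1 (η / (2 * B))) (lt_min one_pos (by positivity))
    obtain ⟨ρ2, hρ2, hd2⟩ := hεc _ _ (((hW v₀ hv₀).2).mono (by linarith : e2 ≤ εc))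
      (η / (2 * S.Lu ^ n * (A + 1))) (by positivity)
    refine ⟨min ρ1 (ρ2 / (A + 1)), lt_min hρ1 (by positivity), fun v hv hvv => ?_⟩
    have hvv1 := hvv.trans (min_le_left _ _)
    have hvv2 := hvv.trans (min_le_right _ _)
    have h1 := hd1 v hv hvv1
    have hb1 : F.Lc (q v₀) (q v) = F.τ x (q v₀) (v - v₀) := by
      rw [F.base x (q v₀) (q v) (hq v₀ hv₀).1 (hq v hv).1, (hq v hv).2, (hq v₀ hv₀).2]
    have hn0 := norm_nonneg (v - v₀)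
    -- size of the increment
    have h2 : ‖F.Lc (p v₀) (p v)‖ ≤ (A + 1) * ‖v - v₀‖ := by
      have e1 : ‖F.H (q v₀) (p v₀) (F.Lc (q v₀) (q v))‖ ≤ A * ‖v - v₀‖ := by
        rw [hb1]; exact hAb _
      have e2 : ‖F.Lc (p v₀) (p v) - F.H (q v₀) (p v₀) (F.Lc (q v₀) (q v))‖ ≤ 1 * ‖v - v₀‖ :=
        h1.trans (mul_le_mul_of_nonneg_right (min_le_left _ _) hn0)
      have e3 := norm_le_norm_add_norm_sub' (F.Lc (p v₀) (p v))
        (F.H (q v₀) (p v₀) (F.Lc (q v₀) (q v)))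
      linarith
    have hU0 := hpp v₀ hv₀ v hv
    have hLcV := F.Lc_mem _ _ hU0
    set Wc := S.g.symm^[n] (p v₀) with hWc
    set Q := S.g.symm^[n] (p v) with hQ
    have hWQ : UAsym S Wc Q := hU0.symm_iter n
    have h3 : F.Lc Wc Q = Dn S.symm n (p v₀) (F.Lc (p v₀) (p v)) := F.toLin0.Lc_back hU0 n
    have h4 : ‖F.Lc Wc Q‖ ≤ (A + 1) * ‖v - v₀‖ := by
      rw [h3]
      have e1 := Dn_symm_le S n (p v₀) hLcV
      have e2 : (1 / 16 : ℝ) ^ n ≤ 1 := pow_le_one₀ (by norm_num) (by norm_num)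
      have e3 : (1 / 16 : ℝ) ^ n * ‖F.Lc (p v₀) (p v)‖ ≤ 1 * ‖F.Lc (p v₀) (p v)‖ :=
        mul_le_mul_of_nonneg_right e2 (norm_nonneg _)
      linarith
    have h5 : ‖F.Lc Wc Q‖ ≤ ρ2 := by
      have : (A + 1) * ‖v - v₀‖ ≤ ρ2 := by
        rw [le_div_iff₀ (by positivity)] at hvv2
        linarith
      linarith
    have hUWQ : S.URel εc Wc Q := ((hsm v₀ hv₀).symm.trans (hsm v hv)).mono (by linarith)
    have hUWQ' : S.URel εc (W v₀) (W v) :=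
      ((hW v₀ hv₀).1.symm.trans (hW v hv).1).mono (by linarith)
    have h6 := hd2 Q (W v) hUWQ h5 ((hW v hv).2.mono (by linarith)) hUWQ'
    have hUW0 : UAsym S (W v₀) (W v) := (hUW v₀ hv₀).symm.trans (hUW v hv)
    have h7 : F.Lc (S.g^[n] (W v₀)) (S.g^[n] (W v)) = Dn S n (W v₀) (F.Lc (W v₀) (W v)) :=
      F.toLin0.Lc_iter hUW0 n
    have h8 : F.H (p v₀) (S.g^[n] (W v₀)) (F.Lc (p v₀) (p v)) =
        Dn S n (W v₀) (F.H Wc (W v₀) (F.Lc Wc Q)) := by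
      have e1 := F.toLin0.H_iter (hSW v₀ hv₀) n (F.Lc_mem _ _ hWQ)
      rw [← e1, h3, iter_iter_symm, Dn_Dn_symm S n (p v₀) hLcV]
    have h9 : F.Lc (W v₀) (W v) - F.H Wc (W v₀) (F.Lc Wc Q) ∈ S.Vu (W v₀) :=
      (S.Vu _).sub_mem (F.Lc_mem _ _ hUW0) (F.H_mem _ _ (hSW v₀ hv₀) _ (F.Lc_mem _ _ hWQ))
    have h10 : ‖F.Lc (S.g^[n] (W v₀)) (S.g^[n] (W v)) -
        F.H (p v₀) (S.g^[n] (W v₀)) (F.Lc (p v₀) (p v))‖ ≤ η / 2 * ‖v - v₀‖ := by
      rw [h7, h8, ← map_sub]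
      calc _ ≤ S.Lu ^ n * ‖F.Lc (W v₀) (W v) - F.H Wc (W v₀) (F.Lc Wc Q)‖ := Dn_le S n _ h9
        _ ≤ S.Lu ^ n * (η / (2 * S.Lu ^ n * (A + 1)) * ‖F.Lc Wc Q‖) := by gcongr
        _ ≤ S.Lu ^ n * (η / (2 * S.Lu ^ n * (A + 1)) * ((A + 1) * ‖v - v₀‖)) := by gcongr
        _ = _ := by field_simp
    have hHm : F.H (q v₀) (p v₀) (F.Lc (q v₀) (q v)) ∈ S.Vu (p v₀) :=
      F.H_mem _ _ (hqp v₀ hv₀) _ (F.Lc_mem _ _ ((hq v₀ hv₀).1.symm.trans (hq v hv).1))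
    have h11 : F.H (q v₀) (S.g^[n] (W v₀)) (F.Lc (q v₀) (q v)) =
        F.H (p v₀) (S.g^[n] (W v₀)) (F.H (q v₀) (p v₀) (F.Lc (q v₀) (q v))) :=
      (F.H_comp _ _ _ (hqp v₀ hv₀) (hS' v₀ hv₀) _
        (F.Lc_mem _ _ ((hq v₀ hv₀).1.symm.trans (hq v hv).1))).symm
    have h12 : ‖F.H (p v₀) (S.g^[n] (W v₀)) (F.Lc (p v₀) (p v)) -
        F.H (q v₀) (S.g^[n] (W v₀)) (F.Lc (q v₀) (q v))‖ ≤ η / 2 * ‖v - v₀‖ := by
      rw [h11, ← map_sub]
      calc _ ≤ B * ‖F.Lc (p v₀) (p v) - F.H (q v₀) (p v₀) (F.Lc (q v₀) (q v))‖ := hBb _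
        _ ≤ B * (η / (2 * B) * ‖v - v₀‖) := by
            apply mul_le_mul_of_nonneg_left _ hB.le
            exact h1.trans (mul_le_mul_of_nonneg_right (min_le_right _ _) hn0)
        _ = _ := by field_simp
    have h13 := norm_add_le (F.Lc (S.g^[n] (W v₀)) (S.g^[n] (W v)) -
        F.H (p v₀) (S.g^[n] (W v₀)) (F.Lc (p v₀) (p v)))
      (F.H (p v₀) (S.g^[n] (W v₀)) (F.Lc (p v₀) (p v)) -
        F.H (q v₀) (S.g^[n] (W v₀)) (F.Lc (q v₀) (q v)))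
    rw [sub_add_sub_cancel] at h13
    linarith
  · intro v hv
    simp only [hback]
    exact (hW v hv).2

/-- The chain of transports. -/
theorem exists_chain {N : E → ℝ} {C₁ R εc e1 e2 ρ : ℝ} {n m : ℕ} {c : ℕ → X} (hR : 0 < R)
    (hN0 : N 0 = 0) (hq : ∀ v ∈ S.Vu x, UAsym S x (q v) ∧ F.Lc x (q v) = v) (hq0 : q 0 = x)
    (hbd : Bd F q x N C₁)
    (hεc : ∀ w w', S.SRel εc w w' → ∀ η > 0, ∃ ρ > 0, ∀ q q', S.URel εc w q →
      ‖F.Lc w q‖ ≤ ρ → S.SRel εc q q' → S.URel εc w' q' →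
      ‖F.Lc w' q' - F.H w w' (F.Lc w q)‖ ≤ η * ‖F.Lc w q‖)
    (he12 : e1 ≤ e2) (he2 : 2 * e2 ≤ εc) (he2' : 2 * e2 ≤ F.ε₀) (he20 : 0 < e2)
    (hcor : ∀ x y z : X, S.SRel e1 x y → S.URel e1 x z → ∃ w, S.URel e2 y w ∧ S.SRel e2 z w)
    (hρ : ∀ x y, UAsym S x y → ‖F.Lc x y‖ ≤ ρ → S.URel e1 x y)
    (hn : (1 / 16) ^ n * (C₁ * R) ≤ ρ) (hc0 : c 0 = x) (hcx : ∀ i ≤ m, S.SRel F.ε₀ x (c i))
    (hcc : ∀ i < m, S.SRel e1 (S.g.symm^[n] (c i)) (S.g.symm^[n] (c (i + 1)))) :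
    ∃ P : ℕ → E → X, P 0 = q ∧
      (∀ i ≤ m, Tr F q {v | v ∈ S.Vu x ∧ N v < R} (c i) (P i)) ∧
      ∀ i < m, ∀ v ∈ S.Vu x, N v < R →
        S.SRel e2 (S.g.symm^[n] (P i v)) (S.g.symm^[n] (P (i + 1) v)) := by
  set D : Set E := {v | v ∈ S.Vu x ∧ N v < R} with hD
  have h0D : (0 : E) ∈ D := ⟨(S.Vu x).zero_mem, by rw [hN0]; exact hR⟩
  have hind : ∀ k ≤ m, ∃ P : ℕ → E → X, P 0 = q ∧ (∀ i ≤ k, Tr F q D (c i) (P i)) ∧
      ∀ i < k, ∀ v ∈ D, S.SRel e2 (S.g.symm^[n] (P i v)) (S.g.symm^[n] (P (i + 1) v)) := by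
    intro k
    induction k with
    | zero =>
      intro _
      refine ⟨fun _ => q, rfl, fun i hi => ?_, fun i hi => absurd hi (Nat.not_lt_zero _)⟩
      have : i = 0 := by omega
      subst this
      rw [hc0]
      exact Tr.init (fun v hv => (hq v hv.1).1) hq0
    | succ k ih =>
      intro hk
      obtain ⟨P, hP0, hPT, hPS⟩ := ih (by omega)
      have hTk := hPT k le_rfl
      obtain ⟨p', hp'1, hp'2⟩ := Tr.step (x := x) (n := n) h0D (fun v hv => hv.1)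
        (fun v hv => hq v hv.1) hεc he12 he2 he2' he20 hcor hTk (hcc k (by omega)) (by
          intro v hv
          apply hρ _ _ ((hTk.u v hv).symm_iter n)
          rw [F.toLin0.Lc_back (hTk.u v hv) n]
          have e1 := Dn_symm_le S n (c k) (F.Lc_mem _ _ (hTk.u v hv))
          have e2 := hbd R hR (c k) (P k) (hcx k (by omega)) hTk v hv.1 hv.2
          have e3 : (1 / 16 : ℝ) ^ n * ‖F.Lc (c k) (P k v)‖ ≤ (1 / 16 : ℝ) ^ n * (C₁ * R) :=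
            mul_le_mul_of_nonneg_left e2 (by positivity)
          linarith)
      refine ⟨fun i => if i ≤ k then P i else p', by simp [hP0], ?_, ?_⟩
      · intro i hi
        by_cases h : i ≤ k
        · simp only [h, if_true]; exact hPT i h
        · have : i = k + 1 := by omega
          subst this
          simp only [h, if_false]
          exact hp'1
      · intro i hi v hv
        by_cases h : i + 1 ≤ k
        · have h' : i ≤ k := by omega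
          simp only [h, h', if_true]
          exact hPS i (by omega) v hv
        · have : i = k := by omega
          subst this
          simp only [le_refl, if_true, h, if_false]
          exact hp'2 v hv
  obtain ⟨P, hP0, hPT, hPS⟩ := hind m le_rfl
  exact ⟨P, hP0, hPT, fun i hi v hv hvR => hPS i hi v ⟨hv, hvR⟩⟩

end

end Pool.Agent.Q130.AN
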