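import Pool.Agent.Q130.AN.Tr2

set_option autoImplicit false

namespace Pool.Agent.Q130.AN

open Pool.Agent.H721R2 Pool.Agent.H779R2.An Filter Topology

variable {X E : Type*} [MetricSpace X] [CompactSpace X] [NormedAddCommGroup E]
  [InnerProductSpace ℝ E] [FiniteDimensional ℝ E]

section

variable {S : HypSys X E} {F : Flat S} {q : E → X} {x : X}

/-- Quadratic estimate for the global transports. -/
theorem Tr.quad (F : Flat S) (J : CJ F) {N : E → ℝ} {c C₁ : ℝ} (hc : 0 < c) (hC₁ : 0 < C₁)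
    (hN0 : N 0 = 0) (hNc : ∀ v, N v ≤ c * ‖v‖)
    (hq : ∀ v ∈ S.Vu x, UAsym S x (q v) ∧ F.Lc x (q v) = v) (hq0 : q 0 = x)
    (hbd : Bd F q x N C₁) :
    ∃ C > 0, ∀ R > 0, ∀ (y : X) (p : E → X), S.SRel F.ε₀ x y →
      Tr F q {v | v ∈ S.Vu x ∧ N v < R} y p → ∀ u ∈ S.Vu x, C * ‖u‖ < R →
      ‖F.Lc y (p u) - F.H x y u‖ ≤ C * ‖u‖ ^ 2 / R := by
  set C' : ℝ := |J.C| with hC'
  have hC'0 : 0 ≤ C' := abs_nonneg _
  have h1C : 0 < 1 + C' := by linarith
  refine ⟨max (2 * c * (1 + C')) ((1 + C') ^ 3 * (C₁ + 1 / c) * 4 * c ^ 2), ?_, ?_⟩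
  · exact lt_max_of_lt_left (by positivity)
  intro R hR y p hxy hT u hu hur
  set D : Set E := {v | v ∈ S.Vu x ∧ N v < R} with hD
  have h0D : (0 : E) ∈ D := ⟨(S.Vu x).zero_mem, by rw [hN0]; exact hR⟩
  have hqD : ∀ v ∈ D, UAsym S x (q v) := fun v hv => (hq v hv.1).1
  have hqD' : ∀ v ∈ D, UAsym S x (q v) ∧ F.Lc x (q v) = v := fun v hv => hq v hv.1
  have hs : SAsym S x y := F.geo.sasym _ _ hxy
  set ρ0 : ℝ := R / (2 * c) with hρ0
  have hρ0pos : 0 < ρ0 := by positivity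
  have hDball : ∀ v ∈ S.Vu x, ‖v‖ ≤ ρ0 → v ∈ D := by
    intro v hv hvn
    refine ⟨hv, lt_of_le_of_lt (hNc v) ?_⟩
    rw [hρ0, le_div_iff₀ (by positivity)] at hvn
    nlinarith [norm_nonneg v]
  have hJle : ∀ x, ∀ v ∈ S.Vu x, ‖J.J x v‖ ≤ C' * ‖v‖ := fun x v hv =>
    (J.J_le x v hv).trans (mul_le_mul_of_nonneg_right (le_abs_self _) (norm_nonneg _))
  have est : ∀ u0 ∈ S.Vu x, ‖u0‖ ≤ ρ0 → ∀ η > 0, ∃ ρ > 0, ∀ u ∈ S.Vu x, ‖u‖ ≤ ρ0 →
      ‖u - u0‖ ≤ ρ → ‖F.Lc y (p u) - F.H x y u - (F.Lc y (p u0) - F.H x y u0) -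
        (TL F q x y p u0 - F.H x y) (u - u0)‖ ≤ η * ‖u - u0‖ := by
    intro u0 hu0 hn0 η hη
    obtain ⟨ρ, hρ, h1⟩ := hT.diff' hqD' u0 (hDball u0 hu0 hn0) η hη
    refine ⟨ρ, hρ, fun u hu hn hd => ?_⟩
    have h2 := h1 u (hDball u hu hn) hd
    have h3 : F.Lc y (p u) - F.H x y u - (F.Lc y (p u0) - F.H x y u0) -
        (TL F q x y p u0 - F.H x y) (u - u0) =
        F.Lc y (p u) - F.Lc y (p u0) - TL F q x y p u0 (u - u0) := by
      rw [LinearMap.sub_apply, map_sub (F.H x y)]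
      abel
    rw [h3]
    exact h2
  have hmain := quad_abs (S.Vu x) (S.Vu y) (J.J x) (J.J y) C' (C₁ * R + 2 * ρ0) ρ0 hC'0 hρ0pos
    (J.J_mem x) (hJle x) (J.J_sq y) (hJle y) (fun v => F.Lc y (p v) - F.H x y v)
    (fun v hv hn => (S.Vu y).sub_mem (F.Lc_mem _ _ (hT.u v (hDball v hv hn)))
      (F.H_mem _ _ hs _ hv))
    (by
      intro v hv hn
      have a1 := hbd R hR y p hxy hT v hv (hDball v hv hn).2
      have a2 := F.H_le x y hxy v hv
      have a3 := norm_sub_le (F.Lc y (p v)) (F.H x y v)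
      linarith)
    (by rw [hT.base, F.Lc_self, map_zero, sub_zero])
    (by
      intro u0 hu0 hn0
      refine ⟨TL F q x y p u0 - F.H x y, ?_, ?_, est u0 hu0 hn0⟩
      · intro v hv
        exact (S.Vu y).sub_mem (TL_mem hT hqD (hDball u0 hu0 hn0) hv) (F.H_mem _ _ hs _ hv)
      · intro v hv
        rw [LinearMap.sub_apply, LinearMap.sub_apply, TL_J J hT hqD (hDball u0 hu0 hn0) hv,
          J.J_H _ _ hs _ hv, map_sub])
    (by
      intro η hη
      have h0n : ‖(0 : E)‖ ≤ ρ0 := by rw [norm_zero]; exact hρ0pos.le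
      obtain ⟨ρ, hρ, h1⟩ := est 0 (S.Vu x).zero_mem h0n η hη
      refine ⟨ρ, hρ, fun u hu hn hd => ?_⟩
      have h2 := h1 u hu hn (by rwa [sub_zero])
      rw [sub_zero, LinearMap.sub_apply, TL_zero hT hqD hq0 h0D hu, hT.base, F.Lc_self,
        map_zero, sub_zero, sub_zero, sub_self, sub_zero] at h2
      exact h2)
  have hu1 : (1 + C') * ‖u‖ < ρ0 := by
    rw [hρ0, lt_div_iff₀ (by positivity)]
    have h1 : (2 * c * (1 + C')) * ‖u‖ ≤
        max (2 * c * (1 + C')) ((1 + C') ^ 3 * (C₁ + 1 / c) * 4 * c ^ 2) * ‖u‖ :=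
      mul_le_mul_of_nonneg_right (le_max_left _ _) (norm_nonneg _)
    linarith
  have h2 := hmain u hu hu1
  refine h2.trans ?_
  have h3 : ((1 + C') * (C₁ * R + 2 * ρ0)) * ((1 + C') * ‖u‖ / ρ0) ^ 2 =
      ((1 + C') ^ 3 * (C₁ + 1 / c) * 4 * c ^ 2) * ‖u‖ ^ 2 / R := by
    rw [hρ0]
    field_simp
    ring
  rw [h3]
  have h4 := le_max_right (2 * c * (1 + C')) ((1 + C') ^ 3 * (C₁ + 1 / c) * 4 * c ^ 2)
  gcongr

/-- **Exact linearity of the stable holonomy.** -/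
theorem lin_all (F : Flat S) (J : CJ F) (hdim : ∀ x, 3 ≤ Module.finrank ℝ (S.Vu x))
    (hseg : SegProp S) : LinProp F Set.univ := by
  obtain ⟨εc, hεc, hcd⟩ := cd F
  have hε₀ := F.geo.pos
  set e2 : ℝ := min F.ε₀ εc / 8 with he2def
  have he2 : 0 < e2 := by
    have := lt_min hε₀ hεc
    positivity
  have he2a : 8 * e2 ≤ F.ε₀ := by
    have := min_le_left F.ε₀ εc
    rw [he2def]; linarith
  have he2b : 8 * e2 ≤ εc := by
    have := min_le_right F.ε₀ εc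
    rw [he2def]; linarith
  obtain ⟨e1', he1', hcor'⟩ := exists_corner S e2 he2
  set e1 : ℝ := min e1' e2 with he1def
  have he1 : 0 < e1 := lt_min he1' he2
  have he12 : e1 ≤ e2 := min_le_right _ _
  have hcor : ∀ x y z : X, S.SRel e1 x y → S.URel e1 x z →
      ∃ w, S.URel e2 y w ∧ S.SRel e2 z w := fun x y z h1 h2 =>
    hcor' x y z (h1.mono (min_le_left _ _)) (h2.mono (min_le_left _ _))
  set δ : ℝ := F.ε₀ / 8 with hδdef
  have hδ : 0 < δ := by positivity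
  obtain ⟨εk, hεk, hcork⟩ := exists_corner S δ hδ
  obtain ⟨ε', hε', hsg⟩ := hseg (min εk F.ε₀) (lt_min hεk hε₀)
  obtain ⟨ρ, hρ, hsm⟩ := F.small e1 he1
  obtain ⟨ρδ, hρδ, hsmδ⟩ := F.small δ hδ
  obtain ⟨ε, hε, hεa, hεb, hεc', hεd⟩ : ∃ ε > 0, ε ≤ ε' ∧ ε ≤ εk ∧ ε ≤ δ ∧ ε ≤ ρδ / 16 := by
    refine ⟨min (min ε' εk) (min δ (ρδ / 16)), ?_, (min_le_left _ _).trans (min_le_left _ _),
      (min_le_left _ _).trans (min_le_right _ _), (min_le_right _ _).trans (min_le_left _ _),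
      (min_le_right _ _).trans (min_le_right _ _)⟩
    exact lt_min (lt_min hε' hεk) (lt_min hδ (by positivity))
  refine ⟨ε, hε, fun x _ x' p p' hxx hxp hpp hxp' => ?_⟩
  have hxx0 : S.SRel F.ε₀ x x' := hxx.mono (by linarith)
  have hxp0 : S.URel F.ε₀ x p := hxp.mono (by linarith)
  have hUxp := F.geo.uasym _ _ hxp0
  set u := F.Lc x p with hu
  have huV : u ∈ S.Vu x := F.Lc_mem _ _ hUxp
  have hun : ‖u‖ ≤ ρδ / 8 := by
    have h1 := F.Lc_le x p hxp0
    have h2 := hxp.dist_le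
    linarith
  obtain ⟨q, hq, hq0⟩ := exists_q F x
  obtain ⟨N, c, C₁, hc, hC₁, hN0, hNc, hbd⟩ := exists_bd F J (hdim x) hq hq0
  obtain ⟨C, hC, hquad⟩ := Tr.quad F J hc hC₁ hN0 hNc hq hq0 hbd
  have hqu : q u = p := F.inj x _ _ (hq u huV).1 hUxp (hq u huV).2
  -- the estimate for a fixed large radius
  have key : ∀ R > 0, c * ‖u‖ < R → C * ‖u‖ < R → C * ‖u‖ ^ 2 / R ≤ ρδ / 4 →
      ‖F.Lc x' p' - F.H x x' u‖ ≤ C * ‖u‖ ^ 2 / R := by
    intro R hR hR1 hR2 hR3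
    have hNu : N u < R := lt_of_le_of_lt (hNc u) hR1
    have hlim : Tendsto (fun n : ℕ => (1 / 16 : ℝ) ^ n * (C₁ * R)) atTop (𝓝 0) := by
      have := (tendsto_pow_atTop_nhds_zero_of_lt_one (by norm_num : (0 : ℝ) ≤ 1 / 16)
        (by norm_num)).mul_const (C₁ * R)
      simpa using this
    obtain ⟨n, hn⟩ := (hlim.eventually (gt_mem_nhds hρ)).exists
    obtain ⟨m, cc, hc0, hcm, hcv, hccc⟩ := hsg x x' (hxx.mono hεa) n e1 he1
    have hcx : ∀ i ≤ m, S.SRel F.ε₀ x (cc i) := fun i hi => (hcv i hi).mono (min_le_right _ _)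
    obtain ⟨P, hP0, hPT, hPS⟩ := exists_chain (n := n) hR hN0 hq hq0 hbd hcd he12 (by linarith)
      (by linarith) he2 hcor hsm hn.le hc0 hcx hccc
    have hUi : ∀ i ≤ m, S.URel δ (cc i) (P i u) := by
      intro i hi
      have hT := hPT i hi
      apply hsmδ _ _ (hT.u u ⟨huV, hNu⟩)
      have h1 := hquad R hR _ _ (hcx i hi) hT u huV hR2
      have h2 := F.H_le _ _ (hcx i hi) u huV
      have h3 := norm_le_norm_add_norm_sub' (F.Lc (cc i) (P i u)) (F.H x (cc i) u)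
      linarith
    have hSi : ∀ i ≤ m, S.SRel δ p (P i u) := by
      intro i
      induction i with
      | zero =>
        intro _
        rw [hP0, hqu]
        exact fun k => by rw [dist_self]; exact hδ.le
      | succ i ih =>
        intro hi
        have h1 := ih (by omega)
        have h2 : S.SRel e2 (P i u) (P (i + 1) u) :=
          SRel_fwd n (hPS i (by omega) u huV hNu)
        obtain ⟨w, hw1, hw2⟩ := hcork x (cc (i + 1)) p
          ((hcv (i + 1) hi).mono (min_le_left _ _)) (hxp.mono hεb)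
        have h3 := hUi (i + 1) hi
        have h4 : w = P (i + 1) u := F.geo.uniq _ _
          ((hw2.symm.trans (h1.trans h2)).mono (by linarith))
          ((hw1.symm.trans h3).mono (by linarith))
        rw [← h4]
        exact hw2
    have hfin : p' = P m u := F.geo.uniq _ _
      ((hpp.symm.trans (hSi m le_rfl)).mono (by linarith)) (by
        have h3 := hUi m le_rfl
        rw [hcm] at h3
        exact (hxp'.symm.trans h3).mono (by linarith))
    have hT := hPT m le_rfl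
    rw [hcm] at hT
    rw [hfin]
    exact hquad R hR _ _ hxx0 hT u huV hR2
  rw [← sub_eq_zero, ← norm_le_zero_iff]
  have hlim2 : Tendsto (fun R : ℝ => C * ‖u‖ ^ 2 / R) atTop (𝓝 0) :=
    tendsto_const_nhds.div_atTop tendsto_id
  refine ge_of_tendsto hlim2 ?_
  filter_upwards [eventually_gt_atTop (0 : ℝ), eventually_gt_atTop (c * ‖u‖),
    eventually_gt_atTop (C * ‖u‖), hlim2.eventually (ge_mem_nhds (by positivity : 0 < ρδ / 4))]
    with R h1 h2 h3 h4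
  exact key R h1 h2 h3 h4

end

end Pool.Agent.Q130.AN
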